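import Pool.Agent.H13.Hol.Tangent

/-!
# Functions killed by all derivations are algebraic over `ℂ(z)`
-/

namespace Pool.Agent.H13.Hol

open PowerSeries Pool.Agent.H13.CEV

variable {M : ℕ}

lemma aeval_comp_eq {S T : Type*} [CommRing S] [CommRing T] [Algebra ℂ S] [Algebra ℂ T]
    (φ : S →ₐ[ℂ] T) {τ : Type*} (f : τ → S) (P : MvPolynomial τ ℂ) :
    φ (MvPolynomial.aeval f P) = MvPolynomial.aeval (fun t => φ (f t)) P := by
  rw [← AlgHom.comp_apply, MvPolynomial.comp_aeval]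

/-- a derivation detecting algebraic independence -/
lemma exists_der_two {L : Type} [Field L] [Algebra ℂ L] [Algebra.EssFiniteType ℂ L] (z f : L)
    (hzf : ∀ R : MvPolynomial (Fin 2) ℂ, MvPolynomial.aeval ![z, f] R = 0 → R = 0) :
    ∃ D : L →+ L, (∀ a b, D (a * b) = a * D b + b * D a) ∧
      (∀ c : ℂ, D (algebraMap ℂ L c) = 0) ∧ D z = 0 ∧ D f = 1 := by
  classical
  let φ₂ : MvPolynomial (Fin 2) ℂ →ₐ[ℂ] L := MvPolynomial.aeval ![z, f]
  let _ : Algebra (MvPolynomial (Fin 2) ℂ) L := φ₂.toRingHom.toAlgebra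
  have hφ₂ : ∀ r, algebraMap (MvPolynomial (Fin 2) ℂ) L r = φ₂ r := fun _ => rfl
  have : IsScalarTower ℂ (MvPolynomial (Fin 2) ℂ) L := IsScalarTower.of_algebraMap_eq (by
    intro c
    rw [hφ₂]
    exact (φ₂.commutes c).symm)
  have hinj : Function.Injective (algebraMap (MvPolynomial (Fin 2) ℂ) L) := by
    rw [injective_iff_map_eq_zero]
    intro r hr
    exact hzf r hr
  have : CharZero L := by
    have : CharZero (MvPolynomial (Fin 2) ℂ) := inferInstance
    exact charZero_of_injective_algebraMap hinj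
  have : FaithfulSMul (MvPolynomial (Fin 2) ℂ) L :=
    (faithfulSMul_iff_algebraMap_injective _ _).mpr hinj
  let _ : Algebra (FractionRing (MvPolynomial (Fin 2) ℂ)) L :=
    FractionRing.liftAlgebra (MvPolynomial (Fin 2) ℂ) L
  have : IsScalarTower (MvPolynomial (Fin 2) ℂ) (FractionRing (MvPolynomial (Fin 2) ℂ)) L :=
    FractionRing.isScalarTower_liftAlgebra _ _
  have : Algebra.EssFiniteType (MvPolynomial (Fin 2) ℂ) L :=
    Algebra.EssFiniteType.of_comp ℂ _ _
  have : Algebra.EssFiniteType (FractionRing (MvPolynomial (Fin 2) ℂ)) L :=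
    Algebra.EssFiniteType.of_comp (MvPolynomial (Fin 2) ℂ) _ _
  have : Algebra.FormallySmooth (FractionRing (MvPolynomial (Fin 2) ℂ)) L := inferInstance
  have : Algebra.FormallySmooth (MvPolynomial (Fin 2) ℂ)
      (FractionRing (MvPolynomial (Fin 2) ℂ)) :=
    Algebra.FormallySmooth.of_isLocalization (nonZeroDivisors _)
  have : Algebra.FormallySmooth (MvPolynomial (Fin 2) ℂ) L :=
    Algebra.FormallySmooth.comp _ (FractionRing (MvPolynomial (Fin 2) ℂ)) _
  obtain ⟨D, hD, hDr⟩ := exists_derivation (R := MvPolynomial (Fin 2) ℂ) (K := L)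
    (MvPolynomial.pderiv (R := ℂ) (1 : Fin 2)).toLinearMap.toAddMonoidHom (by
      intro a b
      show MvPolynomial.pderiv 1 (a * b) = a * MvPolynomial.pderiv 1 b
        + b * MvPolynomial.pderiv 1 a
      rw [Derivation.leibniz, smul_eq_mul, smul_eq_mul])
  have hDr' : ∀ r, D (φ₂ r) = φ₂ (MvPolynomial.pderiv 1 r) := hDr
  refine ⟨D, hD, ?_, ?_, ?_⟩
  · intro c
    have h1 := hDr' (MvPolynomial.C c)
    rw [MvPolynomial.pderiv_C, map_zero] at h1
    have h2 : φ₂ (MvPolynomial.C c) = algebraMap ℂ L c := φ₂.commutes c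
    rw [h2] at h1
    exact h1
  · have h1 := hDr' (MvPolynomial.X 0)
    rw [MvPolynomial.pderiv_X_of_ne (by decide), map_zero] at h1
    have h2 : φ₂ (MvPolynomial.X 0) = z := by
      show MvPolynomial.aeval ![z, f] (MvPolynomial.X 0) = z
      rw [MvPolynomial.aeval_X]
      rfl
    rw [h2] at h1
    exact h1
  · have h1 := hDr' (MvPolynomial.X 1)
    rw [MvPolynomial.pderiv_X_self, map_one] at h1
    have h2 : φ₂ (MvPolynomial.X 1) = f := by
      show MvPolynomial.aeval ![z, f] (MvPolynomial.X 1) = f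
      rw [MvPolynomial.aeval_X]
      rfl
    rw [h2] at h1
    exact h1

theorem algebraic_of_killed (Φ : Fin M → Fin M → ℂ⟦X⟧) (u₀ w₀ : QM M) (hw₀ : ev Φ w₀ ≠ 0)
    (hkill : ∀ W ∈ TT Φ, ∑ s, io (ev Φ (MvPolynomial.pderiv (some s) u₀) * ev Φ w₀
      - ev Φ u₀ * ev Φ (MvPolynomial.pderiv (some s) w₀)) * W s = 0) :
    ∃ R : MvPolynomial (Fin 2) ℂ, R ≠ 0 ∧
      MvPolynomial.aeval ![io (X : ℂ⟦X⟧), io (ev Φ u₀) / io (ev Φ w₀)] R = 0 := by
  classical
  by_contra hcon
  push Not at hcon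
  set p : Ideal (QM M) := RingHom.ker (ev Φ : QM M →+* ℂ⟦X⟧) with hp
  have hpp : p.IsPrime := RingHom.ker_isPrime _
  have hmem : ∀ P, P ∈ p ↔ ev Φ P = 0 := fun P => RingHom.mem_ker
  set S₁ := QM M ⧸ p with hS₁
  set L₁ := FractionRing S₁ with hL₁
  let j : S₁ →ₐ[ℂ] ℂ⟦X⟧ := Ideal.Quotient.liftₐ p (ev Φ) (fun P hP => (hmem P).mp hP)
  have hj : Function.Injective j := by
    rw [injective_iff_map_eq_zero]
    intro x hx
    obtain ⟨P, rfl⟩ := Ideal.Quotient.mk_surjective x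
    have : ev Φ P = 0 := hx
    exact Ideal.Quotient.eq_zero_iff_mem.mpr ((hmem P).mpr this)
  have hioinj : Function.Injective io := IsFractionRing.injective ℂ⟦X⟧ KK
  let jK : S₁ →+* KK := io.comp j.toRingHom
  have hjK : Function.Injective jK := hioinj.comp hj
  let ι₁ : L₁ →+* KK := IsFractionRing.lift hjK
  have hι₁ : ∀ x : S₁, ι₁ (algebraMap S₁ L₁ x) = io (j x) := fun x =>
    IsFractionRing.lift_algebraMap hjK x
  have hι₁inj : Function.Injective ι₁ := ι₁.injective
  -- the generators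
  let gen : Option (Fin M × Fin M) → L₁ := fun t =>
    algebraMap S₁ L₁ (Ideal.Quotient.mk p (MvPolynomial.X t))
  have hgen : ∀ P : QM M, MvPolynomial.aeval gen P
      = algebraMap S₁ L₁ (Ideal.Quotient.mk p P) := by
    intro P
    have h1 := aeval_comp_eq (IsScalarTower.toAlgHom ℂ S₁ L₁)
      (fun t => Ideal.Quotient.mk p (MvPolynomial.X t)) P
    have h2 := aeval_comp_eq (Ideal.Quotient.mkₐ ℂ p) (fun t => MvPolynomial.X t) P
    rw [MvPolynomial.aeval_X_left_apply] at h2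
    have h3 : MvPolynomial.aeval (fun t => (Ideal.Quotient.mk p (MvPolynomial.X t))) P
        = Ideal.Quotient.mk p P := h2.symm
    rw [h3] at h1
    exact h1.symm
  have hgenι : ∀ P : QM M, ι₁ (MvPolynomial.aeval gen P) = io (ev Φ P) := by
    intro P
    rw [hgen, hι₁]
    rfl
  set z₁ : L₁ := gen none with hz₁
  set w₁ : L₁ := MvPolynomial.aeval gen w₀ with hw₁
  set u₁ : L₁ := MvPolynomial.aeval gen u₀ with hu₁
  have hw₁0 : w₁ ≠ 0 := by
    intro h0
    have h1 := hgenι w₀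
    rw [← hw₁, h0, map_zero] at h1
    exact hw₀ (hioinj (by rw [← h1, map_zero]))
  set f₁ : L₁ := u₁ / w₁ with hf₁
  have hιc : ∀ c : ℂ, ι₁ (algebraMap ℂ L₁ c) = algebraMap ℂ KK c := by
    intro c
    rw [IsScalarTower.algebraMap_apply ℂ S₁ L₁, hι₁,
      IsScalarTower.algebraMap_apply ℂ ℂ⟦X⟧ KK]
    congr 1
    exact j.commutes c
  have hindep : ∀ R : MvPolynomial (Fin 2) ℂ, MvPolynomial.aeval ![z₁, f₁] R = 0 → R = 0 := by
    intro r hr
    by_contra hr0
    apply hcon r hr0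
    let ι₁' : L₁ →ₐ[ℂ] KK := { ι₁ with commutes' := hιc }
    have h2 := aeval_comp_eq ι₁' ![z₁, f₁] r
    have h3 : (fun t => ι₁' (![z₁, f₁] t)) = ![io (X : ℂ⟦X⟧), io (ev Φ u₀) / io (ev Φ w₀)] := by
      funext t
      fin_cases t
      · show ι₁ z₁ = io X
        have := hgenι (MvPolynomial.X none)
        rw [MvPolynomial.aeval_X] at this
        rw [hz₁, this, ev, MvPolynomial.aeval_X]
        rfl
      · show ι₁ f₁ = _
        rw [hf₁, map_div₀, hu₁, hw₁, hgenι, hgenι]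
        rfl
    rw [h3, hr, map_zero] at h2
    exact h2.symm
  have : Algebra.EssFiniteType ℂ (QM M) := inferInstance
  have : Algebra.EssFiniteType (QM M) S₁ := inferInstance
  have : Algebra.EssFiniteType ℂ S₁ := Algebra.EssFiniteType.comp _ (QM M) _
  have : Algebra.EssFiniteType S₁ L₁ :=
    Algebra.EssFiniteType.of_isLocalization _ (nonZeroDivisors S₁)
  have : Algebra.EssFiniteType ℂ L₁ := Algebra.EssFiniteType.comp _ S₁ _
  obtain ⟨D, hD, hDc, hDz, hDf⟩ := exists_der_two z₁ f₁ hindep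
  have hchain : ∀ P : QM M, D (MvPolynomial.aeval gen P)
      = ∑ s, MvPolynomial.aeval gen (MvPolynomial.pderiv (some s) P) * D (gen (some s)) := by
    intro P
    rw [chain D hD hDc gen P, Fintype.sum_option]
    have : D (gen none) = 0 := hDz
    rw [this, mul_zero, zero_add]
  have hWT : (fun s => ι₁ (D (gen (some s)))) ∈ TT Φ := by
    intro P hP
    have h1 : MvPolynomial.aeval gen P = 0 := by
      apply hι₁inj
      rw [hgenι, hP, map_zero, map_zero]
    have h2 := hchain P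
    rw [h1, map_zero] at h2
    have h3 := congrArg ι₁ h2
    rw [map_zero, map_sum] at h3
    rw [h3]
    apply Finset.sum_congr rfl
    intro s _
    rw [map_mul, hgenι]
  have h1 := hkill _ hWT
  have h2 : ∑ s, io (ev Φ (MvPolynomial.pderiv (some s) u₀) * ev Φ w₀
      - ev Φ u₀ * ev Φ (MvPolynomial.pderiv (some s) w₀)) * ι₁ (D (gen (some s)))
      = ι₁ (D u₁ * w₁ - u₁ * D w₁) := by
    rw [hu₁, hw₁, hchain, hchain, map_sub, map_mul, map_mul, hgenι, hgenι, map_sum, map_sum,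
      Finset.sum_mul, Finset.mul_sum, ← Finset.sum_sub_distrib]
    apply Finset.sum_congr rfl
    intro s _
    rw [map_mul, map_mul, hgenι, hgenι, map_sub, map_mul, map_mul]
    ring
  rw [h2] at h1
  have h3 : D u₁ * w₁ - u₁ * D w₁ = 0 := hι₁inj (by rw [h1, map_zero])
  have h4 : u₁ = f₁ * w₁ := by rw [hf₁, div_mul_cancel₀ _ hw₁0]
  have h5 : D u₁ = f₁ * D w₁ + w₁ := by
    rw [h4, hD, hDf, mul_one]
  rw [h5, h4] at h3
  have h6 : w₁ * w₁ = 0 := by linear_combination h3
  exact hw₁0 (mul_self_eq_zero.mp h6)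

end Pool.Agent.H13.Hol
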