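import Pool.Agent.H13.CEV.Extend

/-!
# Constants, and subspaces stable under a derivation
-/

namespace Pool.Agent.H13.Hol

open PowerSeries Pool.Agent.H13.CEV

/-- the derivation of the fraction field of `ℂ⟦X⟧` -/
lemma exists_der_frac : ∃ D : FractionRing ℂ⟦X⟧ →+ FractionRing ℂ⟦X⟧,
    (∀ a b, D (a * b) = a * D b + b * D a) ∧
    (∀ f : ℂ⟦X⟧, D (algebraMap ℂ⟦X⟧ (FractionRing ℂ⟦X⟧) f)
      = algebraMap ℂ⟦X⟧ (FractionRing ℂ⟦X⟧) (d⁄dX ℂ f)) ∧
    ∀ x, D x = 0 → ∃ c : ℂ, x = algebraMap ℂ⟦X⟧ (FractionRing ℂ⟦X⟧) (C c) := by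
  have : Algebra.FormallySmooth ℂ⟦X⟧ (FractionRing ℂ⟦X⟧) :=
    Algebra.FormallySmooth.of_isLocalization (nonZeroDivisors _)
  obtain ⟨D, hD1, hD2⟩ := exists_derivation (R := ℂ⟦X⟧) (K := FractionRing ℂ⟦X⟧)
    (PowerSeries.derivative ℂ).toLinearMap.toAddMonoidHom (by
      intro a b
      show d⁄dX ℂ (a * b) = a * d⁄dX ℂ b + b * d⁄dX ℂ a
      rw [Derivation.leibniz, smul_eq_mul, smul_eq_mul])
  have hD2' : ∀ f : ℂ⟦X⟧, D (algebraMap ℂ⟦X⟧ (FractionRing ℂ⟦X⟧) f)
      = algebraMap ℂ⟦X⟧ (FractionRing ℂ⟦X⟧) (d⁄dX ℂ f) := hD2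
  refine ⟨D, hD1, hD2', ?_⟩
  have hinj : Function.Injective (algebraMap ℂ⟦X⟧ (FractionRing ℂ⟦X⟧)) :=
    IsFractionRing.injective _ _
  have hconst : ∀ f : ℂ⟦X⟧, D (algebraMap ℂ⟦X⟧ (FractionRing ℂ⟦X⟧) f) = 0 →
      f = C (constantCoeff f) := by
    intro f hf
    rw [hD2'] at hf
    have h1 : d⁄dX ℂ f = 0 := hinj (by rw [hf, map_zero])
    ext n
    rw [coeff_C]
    rcases n with _ | n
    · simp
    · rw [if_neg (Nat.succ_ne_zero n)]
      have h2 := congrArg (coeff n) h1
      rw [coeff_derivative, map_zero] at h2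
      rcases mul_eq_zero.mp h2 with h | h
      · exact h
      · exact absurd h (by exact_mod_cast Nat.succ_ne_zero n)
  intro x hx
  rcases ValuationRing.isInteger_or_isInteger ℂ⟦X⟧ x with ⟨f, hf⟩ | ⟨f, hf⟩
  · refine ⟨constantCoeff f, ?_⟩
    rw [← hf] at hx ⊢
    exact congrArg _ (hconst f hx)
  · by_cases hx0 : x = 0
    · exact ⟨0, by rw [hx0, map_zero, map_zero]⟩
    · have h1 : D x⁻¹ = 0 := by
        have h2 := hD1 x x⁻¹
        rw [mul_inv_cancel₀ hx0, hx, mul_zero, add_zero] at h2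
        have h3 : D 1 = 0 := by
          have := hD2' 1
          rw [map_one] at this
          rw [this]
          simp
        rw [h3] at h2
        exact (mul_eq_zero.mp h2.symm).resolve_left hx0
      rw [← hf] at h1
      have h2 := hconst f h1
      refine ⟨(constantCoeff f)⁻¹, ?_⟩
      have h3 : x = (algebraMap ℂ⟦X⟧ (FractionRing ℂ⟦X⟧) f)⁻¹ := by rw [hf, inv_inv]
      have h4 : constantCoeff f ≠ 0 := by
        intro h0
        rw [h0, map_zero] at h2
        rw [h2, map_zero, inv_zero] at h3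
        exact hx0 h3
      rw [h3]
      have h5 : algebraMap ℂ⟦X⟧ (FractionRing ℂ⟦X⟧) f
          * algebraMap ℂ⟦X⟧ (FractionRing ℂ⟦X⟧) (C (constantCoeff f)⁻¹) = 1 := by
        rw [← map_mul, h2, constantCoeff_C, ← map_mul, mul_inv_cancel₀ h4, map_one, map_one]
      exact inv_eq_of_mul_eq_one_right h5

/-- A subspace stable under a derivation is spanned by its constant vectors. -/
lemma span_const {K : Type*} [Field K] [Algebra ℂ K] (δ : K →+ K)
    (hδ : ∀ a b, δ (a * b) = a * δ b + b * δ a)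
    (hconst : ∀ x, δ x = 0 → ∃ c : ℂ, x = algebraMap ℂ K c) {σ : Type*} [Fintype σ]
    (V : Submodule K (σ → K)) (hV : ∀ v ∈ V, (fun s => δ (v s)) ∈ V) :
    V ≤ Submodule.span K {v | v ∈ V ∧ ∃ m : σ → ℂ, v = fun s => algebraMap ℂ K (m s)} := by
  classical
  set V' := Submodule.span K {v | v ∈ V ∧ ∃ m : σ → ℂ, v = fun s => algebraMap ℂ K (m s)} with hV'
  have h1 : δ 1 = 0 := by
    have := hδ 1 1
    simp only [mul_one, one_mul] at this
    have h2 : δ 1 + δ 1 = δ 1 + 0 := by rw [← this, add_zero]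
    exact add_left_cancel h2
  have key : ∀ (n : ℕ) (v : σ → K), v ∈ V → (Finset.univ.filter fun s => v s ≠ 0).card ≤ n →
      v ∈ V' := by
    intro n
    induction n with
    | zero =>
      intro v _ hcard
      have h2 : ∀ s, v s = 0 := by
        intro s
        by_contra h
        have h3 : s ∈ Finset.univ.filter fun s => v s ≠ 0 := by simp [h]
        have h4 := Finset.card_pos.mpr ⟨s, h3⟩
        omega
      have : v = 0 := funext h2
      rw [this]
      exact Submodule.zero_mem _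
    | succ n ih =>
      intro v hv hcard
      by_cases hv0 : v = 0
      · rw [hv0]; exact Submodule.zero_mem _
      obtain ⟨s, hs⟩ : ∃ s, v s ≠ 0 := by
        by_contra hcon
        push Not at hcon
        exact hv0 (funext hcon)
      set v₁ : σ → K := (v s)⁻¹ • v with hv₁
      have hv₁V : v₁ ∈ V := V.smul_mem _ hv
      have hv₁s : v₁ s = 1 := by
        simp only [hv₁, Pi.smul_apply, smul_eq_mul]
        exact inv_mul_cancel₀ hs
      have hv₁0 : ∀ t, v t = 0 → v₁ t = 0 := by
        intro t ht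
        simp only [hv₁, Pi.smul_apply, smul_eq_mul, ht, mul_zero]
      -- vectors in `V` supported on a proper subset of the support
      have hsmall : ∀ w ∈ V, ∀ t, v t ≠ 0 → w t = 0 → (∀ t', v t' = 0 → w t' = 0) → w ∈ V' := by
        intro w hw t ht hwt hsub
        apply ih w hw
        have h2 : (Finset.univ.filter fun s => w s ≠ 0) ⊆
            (Finset.univ.filter fun s => v s ≠ 0).erase t := by
          intro t' ht'
          rw [Finset.mem_filter] at ht'
          rw [Finset.mem_erase, Finset.mem_filter]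
          refine ⟨?_, Finset.mem_univ _, fun h => ht'.2 (hsub t' h)⟩
          rintro rfl
          exact ht'.2 hwt
        have h3 := Finset.card_le_card h2
        rw [Finset.card_erase_of_mem (by simp [ht])] at h3
        omega
      have hδ0 : ∀ t, v t = 0 → δ (v₁ t) = 0 := by
        intro t ht
        rw [hv₁0 t ht, map_zero]
      have hδv : (fun s => δ (v₁ s)) ∈ V' :=
        hsmall _ (hV v₁ hv₁V) s hs (by
          show δ (v₁ s) = 0
          rw [hv₁s, h1]) hδ0
      have hv₁V' : v₁ ∈ V' := by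
        by_cases hall : ∀ t, δ (v₁ t) = 0
        · choose m hm using fun t => hconst _ (hall t)
          exact Submodule.subset_span ⟨hv₁V, m, funext hm⟩
        · push Not at hall
          obtain ⟨t, ht⟩ := hall
          have hvt : v t ≠ 0 := fun h => ht (hδ0 t h)
          have h2 : v₁ - (v₁ t / δ (v₁ t)) • (fun s => δ (v₁ s)) ∈ V' := by
            apply hsmall _ (V.sub_mem hv₁V (V.smul_mem _ (hV v₁ hv₁V))) t hvt
            · simp only [Pi.sub_apply, Pi.smul_apply, smul_eq_mul]
              rw [div_mul_cancel₀ _ ht, sub_self]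
            · intro t' ht'
              simp only [Pi.sub_apply, Pi.smul_apply, smul_eq_mul]
              rw [hv₁0 t' ht', map_zero, mul_zero, sub_zero]
          have h3 := V'.add_mem h2 (V'.smul_mem (v₁ t / δ (v₁ t)) hδv)
          rwa [sub_add_cancel] at h3
      have : v = v s • v₁ := by
        rw [hv₁, smul_smul, mul_inv_cancel₀ hs, one_smul]
      rw [this]
      exact V'.smul_mem _ hv₁V'
  intro v hv
  exact key _ v hv le_rfl

end Pool.Agent.H13.Hol
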