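import Mathlib

/-!
# Formal solutions of linear systems `y' = A y`
-/

namespace Pool.Agent.H13.Hol

open PowerSeries

variable {M : ℕ}

/-- coefficients of the formal solution -/
noncomputable def solSeq (A : Fin M → Fin M → ℂ⟦X⟧) (c : Fin M → ℂ) : ℕ → (Fin M → ℂ)
  | 0 => c
  | (n + 1) => fun i => ((n : ℂ) + 1)⁻¹ * ∑ j : Fin (n + 1),
      ∑ l, coeff (n - j) (A i l) * solSeq A c j l
termination_by n => n
decreasing_by exact j.2

lemma solSeq_succ (A : Fin M → Fin M → ℂ⟦X⟧) (c : Fin M → ℂ) (n : ℕ) (i : Fin M) :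
    ((n : ℂ) + 1) * solSeq A c (n + 1) i = ∑ j ∈ Finset.range (n + 1),
      ∑ l, coeff (n - j) (A i l) * solSeq A c j l := by
  rw [solSeq, ← mul_assoc, mul_inv_cancel₀, one_mul, ← Fin.sum_univ_eq_sum_range
    (fun j => ∑ l, coeff (n - j) (A i l) * solSeq A c j l)]
  exact_mod_cast Nat.succ_ne_zero n

/-- the formal solution -/
noncomputable def fsol (A : Fin M → Fin M → ℂ⟦X⟧) (c : Fin M → ℂ) (i : Fin M) : ℂ⟦X⟧ :=
  PowerSeries.mk fun n => solSeq A c n i

lemma fsol_zero (A : Fin M → Fin M → ℂ⟦X⟧) (c : Fin M → ℂ) (i : Fin M) :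
    constantCoeff (fsol A c i) = c i := by
  rw [fsol, ← coeff_zero_eq_constantCoeff_apply, coeff_mk, solSeq]

lemma fsol_deriv (A : Fin M → Fin M → ℂ⟦X⟧) (c : Fin M → ℂ) (i : Fin M) :
    d⁄dX ℂ (fsol A c i) = ∑ l, A i l * fsol A c l := by
  ext n
  rw [coeff_derivative, map_sum]
  simp only [fsol, coeff_mul, coeff_mk]
  rw [mul_comm, solSeq_succ, Finset.sum_comm]
  apply Finset.sum_congr rfl
  intro l _
  rw [Finset.Nat.sum_antidiagonal_eq_sum_range_succ_mk, ← Finset.sum_range_reflect]
  apply Finset.sum_congr rfl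
  intro j hj
  rw [Finset.mem_range] at hj
  have h1 : n + 1 - 1 - j = n - j := by omega
  have h2 : n - (n - j) = j := by omega
  rw [h1]
  dsimp only
  rw [h2]

lemma formal_unique (A : Fin M → Fin M → ℂ⟦X⟧) (w : Fin M → ℂ⟦X⟧)
    (hw : ∀ i, d⁄dX ℂ (w i) = ∑ l, A i l * w l) (h0 : ∀ i, constantCoeff (w i) = 0) (i : Fin M) :
    w i = 0 := by
  have key : ∀ n : ℕ, ∀ i, coeff n (w i) = 0 := by
    intro n
    induction n using Nat.strong_induction_on with
    | _ n ih =>
    intro i
    rcases n with _ | n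
    · rw [coeff_zero_eq_constantCoeff_apply]; exact h0 i
    · have h1 := congrArg (coeff n) (hw i)
      rw [coeff_derivative, map_sum] at h1
      have h2 : ∑ l, coeff n (A i l * w l) = 0 := by
        apply Finset.sum_eq_zero
        intro l _
        rw [coeff_mul]
        apply Finset.sum_eq_zero
        intro p hp
        have := Finset.HasAntidiagonal.mem_antidiagonal.mp hp
        rw [ih p.2 (by omega) l, mul_zero]
      rw [h2] at h1
      rcases mul_eq_zero.mp h1 with h | h
      · exact h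
      · exact absurd h (by exact_mod_cast Nat.succ_ne_zero n)
  ext n
  rw [key n i, map_zero]

/-- fundamental matrix -/
theorem exists_fundamental (A : Fin M → Fin M → ℂ⟦X⟧) :
    ∃ Φ : Fin M → Fin M → ℂ⟦X⟧, (∀ i j, d⁄dX ℂ (Φ i j) = ∑ l, A i l * Φ l j) ∧
      (∀ i j, constantCoeff (Φ i j) = if i = j then 1 else 0) ∧
      IsUnit (Matrix.of Φ).det ∧
      ∀ y : Fin M → ℂ⟦X⟧, (∀ i, d⁄dX ℂ (y i) = ∑ l, A i l * y l) →
        ∀ i, y i = ∑ j, Φ i j * C (constantCoeff (y j)) := by
  classical
  refine ⟨fun i j => fsol A (fun l => if l = j then 1 else 0) i, fun i j => fsol_deriv _ _ _,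
    fun i j => fsol_zero _ _ _, ?_, ?_⟩
  · rw [PowerSeries.isUnit_iff_constantCoeff, RingHom.map_det]
    have : (constantCoeff (R := ℂ)).mapMatrix
        (Matrix.of fun i j => fsol A (fun l => if l = j then 1 else 0) i) = 1 := by
      ext i j
      rw [RingHom.mapMatrix_apply, Matrix.map_apply, Matrix.of_apply, fsol_zero, Matrix.one_apply]
    rw [this, Matrix.det_one]
    exact isUnit_one
  · intro y hy i
    have h1 := formal_unique A
      (fun i => y i - ∑ j, fsol A (fun l => if l = j then 1 else 0) i * C (constantCoeff (y j)))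
      (by
        intro i
        rw [map_sub, map_sum, hy i]
        simp only [Derivation.leibniz, derivative_C, smul_eq_mul, mul_zero, zero_add, fsol_deriv,
          mul_sub, Finset.sum_sub_distrib, Finset.mul_sum]
        congr 1
        rw [Finset.sum_comm]
        apply Finset.sum_congr rfl
        intro l _
        apply Finset.sum_congr rfl
        intro j _
        ring)
      (by
        intro i
        rw [map_sub, map_sum]
        simp only [map_mul, fsol_zero, constantCoeff_C]
        simp) i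
    exact sub_eq_zero.mp h1

end Pool.Agent.H13.Hol
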