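import Pool.Agent.H13.Hol.Taylor
import Pool.Agent.H13.Hol.Formal
import Pool.Agent.H13.Kob.Few

/-!
# Holonomic curves on general hypersurfaces
-/

open Filter Topology

namespace Pool.Agent.H13.Hol

open PowerSeries Pool.Agent.H13.CEV Pool.Agent.H13.Kob

/-- a function satisfying a linear differential equation of order at most `m` with polynomial
coefficients -/
def Holo (m : ℕ) (f : ℂ → ℂ) : Prop :=
  ∃ p : Fin (m + 1) → Polynomial ℂ, p ≠ 0 ∧
    ∀ z, ∑ l : Fin (m + 1), (p l).eval z * iteratedDeriv l f z = 0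

lemma reduce_order (f : ℂ → ℂ) (p : ℕ → Polynomial ℂ) : ∀ m : ℕ, (∃ l ≤ m, p l ≠ 0) →
    (∀ z, ∑ l ∈ Finset.range (m + 1), (p l).eval z * iteratedDeriv l f z = 0) →
    ∃ m' ≤ m, p m' ≠ 0 ∧
      ∀ z, ∑ l ∈ Finset.range (m' + 1), (p l).eval z * iteratedDeriv l f z = 0 := by
  intro m
  induction m with
  | zero =>
    rintro ⟨l, hl, hp⟩ h
    have hl0 : l = 0 := Nat.le_zero.mp hl
    rw [hl0] at hp
    exact ⟨0, le_rfl, hp, h⟩
  | succ m ih =>
    intro hex h
    by_cases hp : p (m + 1) = 0
    · obtain ⟨m', hm', h1, h2⟩ := ih (by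
        obtain ⟨l, hl, hl'⟩ := hex
        refine ⟨l, ?_, hl'⟩
        rcases Nat.lt_or_ge m l with h3 | h3
        · have : l = m + 1 := by omega
          exact absurd (by rw [this]; exact hp) hl'
        · exact h3) (by
        intro z
        have h3 := h z
        rw [Finset.sum_range_succ, hp] at h3
        simpa using h3)
      exact ⟨m', by omega, h1, h2⟩
    · exact ⟨m + 1, le_rfl, hp, h⟩

lemma raise_order {f : ℂ → ℂ} (hf : Differentiable ℂ f) (p : ℕ → Polynomial ℂ) (m : ℕ)
    (hp : p m ≠ 0)
    (h : ∀ z, ∑ l ∈ Finset.range (m + 1), (p l).eval z * iteratedDeriv l f z = 0) :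
    ∀ k : ℕ, ∃ q : ℕ → Polynomial ℂ, q (m + k) ≠ 0 ∧
      ∀ z, ∑ l ∈ Finset.range (m + k + 1), (q l).eval z * iteratedDeriv l f z = 0 := by
  classical
  intro k
  induction k with
  | zero => exact ⟨p, hp, h⟩
  | succ k ih =>
    obtain ⟨q, hq, hq'⟩ := ih
    refine ⟨fun l => (if l ≤ m + k then Polynomial.derivative (q l) else 0)
      + (if l = 0 then 0 else q (l - 1)), ?_, ?_⟩
    · have h1 : ¬ (m + (k + 1) ≤ m + k) := by omega
      have h2 : m + (k + 1) ≠ 0 := by omega
      dsimp only
      rw [if_neg h1, if_neg h2, zero_add]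
      have : m + (k + 1) - 1 = m + k := by omega
      rw [this]
      exact hq
    · intro z
      have hder : ∀ l : ℕ, HasDerivAt (iteratedDeriv l f) (iteratedDeriv (l + 1) f z) z := by
        intro l
        rw [iteratedDeriv_succ]
        have h1 : Differentiable ℂ (iteratedDeriv l f) :=
          (hf.contDiff (n := (⊤ : ℕ∞))).differentiable_iteratedDeriv l (by
            exact_mod_cast ENat.natCast_lt_top l)
        exact (h1 z).hasDerivAt
      have h3 : HasDerivAt (fun z => ∑ l ∈ Finset.range (m + k + 1), (q l).eval z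
          * iteratedDeriv l f z) (∑ l ∈ Finset.range (m + k + 1),
            ((Polynomial.derivative (q l)).eval z * iteratedDeriv l f z
              + (q l).eval z * iteratedDeriv (l + 1) f z)) z := by
        apply HasDerivAt.fun_sum
        intro l _
        exact ((q l).hasDerivAt z).mul (hder l)
      have h4 : HasDerivAt (fun z => ∑ l ∈ Finset.range (m + k + 1), (q l).eval z
          * iteratedDeriv l f z) 0 z := by
        have : (fun z => ∑ l ∈ Finset.range (m + k + 1), (q l).eval z
          * iteratedDeriv l f z) = fun _ => 0 := funext hq'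
        rw [this]
        exact hasDerivAt_const _ _
      have h5 := h3.unique h4
      rw [Finset.sum_add_distrib] at h5
      simp only [Polynomial.eval_add, add_mul, Finset.sum_add_distrib]
      rw [← h5]
      congr 1
      · have : m + (k + 1) + 1 = (m + k + 1) + 1 := by omega
        rw [this, Finset.sum_range_succ]
        have h6 : ¬ (m + k + 1 ≤ m + k) := by omega
        rw [if_neg h6, Polynomial.eval_zero, zero_mul, add_zero]
        apply Finset.sum_congr rfl
        intro l hl
        rw [if_pos (by have := Finset.mem_range.mp hl; omega)]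
      · have : m + (k + 1) + 1 = (m + k + 1) + 1 := by omega
        rw [this, Finset.sum_range_succ']
        simp

/-- normal form of the differential equation -/
lemma holo_top {m : ℕ} {f : ℂ → ℂ} (hf : Differentiable ℂ f) (h : Holo m f) (k : ℕ) (hk : m ≤ k) :
    ∃ q : ℕ → Polynomial ℂ, q k ≠ 0 ∧
      ∀ z, ∑ l ∈ Finset.range (k + 1), (q l).eval z * iteratedDeriv l f z = 0 := by
  classical
  obtain ⟨p, hp, hp'⟩ := h
  obtain ⟨m', hm', h1, h2⟩ := reduce_order f
    (fun l => if hl : l < m + 1 then p ⟨l, hl⟩ else 0) m (by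
      by_contra hcon
      push Not at hcon
      apply hp
      funext l
      have h3 := hcon l (by have := l.2; omega)
      rw [dif_pos l.2] at h3
      exact h3) (by
      intro z
      rw [Finset.sum_range]
      rw [← hp' z]
      apply Finset.sum_congr rfl
      intro l _
      rw [dif_pos l.2])
  obtain ⟨q, hq, hq'⟩ := raise_order hf _ m' h1 h2 (k - m')
  have : m' + (k - m') = k := by omega
  rw [this] at hq hq'
  exact ⟨q, hq, hq'⟩

section

variable {N d e : ℕ}

lemma differentiable_iter {f : ℂ → ℂ} (hf : Differentiable ℂ f) (l : ℕ) :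
    Differentiable ℂ (iteratedDeriv l f) :=
  (hf.contDiff (n := (⊤ : ℕ∞))).differentiable_iteratedDeriv l (by
    exact_mod_cast ENat.natCast_lt_top l)

/-- the structure theorem near a regular point -/
theorem ratio_of_regular {x : mons N d → ℂ} (hx : Good e x) {m : ℕ} (hm : 0 < m)
    (he : ∀ k ≤ N * m, ∀ a : Fin k → ℕ, ∃ b : Fin k → ℕ, SameType d a b ∧ ∀ j, b j ≤ e)
    (hMe : N * m ≤ e) (g : Fin N → EE) (p : Fin N → ℕ → Polynomial ℂ)
    (hp : ∀ i, (p i m).eval 0 ≠ 0)
    (hode : ∀ i z, ∑ l ∈ Finset.range (m + 1), (p i l).eval z * iteratedDeriv l (g i).1 z = 0)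
    (hF : ∀ z, MvPolynomial.eval (fun i => (g i).1 z) (Fm x) = 0) (i i' : Fin N)
    (hi' : ∃ z, (g i').1 z ≠ 0) :
    ∃ P Q : Polynomial ℂ, Q ≠ 0 ∧ ∀ z, Q.eval z * (g i).1 z = P.eval z * (g i').1 z := by
  classical
  have hN : 0 < N := lt_of_le_of_lt (Nat.zero_le _) i.2
  have hM : 0 < N * m := Nat.mul_pos hN hm
  set a : Polynomial ℂ := ∏ i, p i m with ha
  have ha0 : a.eval 0 ≠ 0 := by
    rw [ha, Polynomial.eval_prod]
    exact Finset.prod_ne_zero_iff.mpr fun i _ => hp i
  have hane : a ≠ 0 := by
    intro h0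
    rw [h0, Polynomial.eval_zero] at ha0
    exact ha0 rfl
  set ix : Fin N × Fin m ≃ Fin (N * m) := finProdFinEquiv with hix
  set A : Fin (N * m) → Fin (N * m) → Polynomial ℂ := fun s t =>
    if (ix.symm s).1 = (ix.symm t).1 then
      (if ((ix.symm s).2 : ℕ) + 1 < m then
        (if ((ix.symm t).2 : ℕ) = (ix.symm s).2 + 1 then a else 0)
      else -((∏ j ∈ Finset.univ.erase (ix.symm s).1, p j m) * p (ix.symm s).1 (ix.symm t).2))
    else 0 with hA
  -- the vector of derivatives
  let y : Fin (N * m) → EE := fun s =>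
    ⟨iteratedDeriv (ix.symm s).2 (g (ix.symm s).1).1, differentiable_iter (g (ix.symm s).1).2 _⟩
  have hy : ∀ s z, a.eval z * deriv (y s).1 z = ∑ t, (A s t).eval z * (y t).1 z := by
    intro s z
    have h1 : deriv (y s).1 z = iteratedDeriv ((ix.symm s).2 + 1) (g (ix.symm s).1).1 z := by
      rw [iteratedDeriv_succ]
    rw [h1, ← Equiv.sum_comp ix, Fintype.sum_prod_type]
    simp only [hA, Equiv.symm_apply_apply, y]
    set j := (ix.symm s).1 with hj
    set l := (ix.symm s).2 with hl
    rw [Finset.sum_eq_single j]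
    · simp only [if_true]
      by_cases hlm : (l : ℕ) + 1 < m
      · simp only [if_pos hlm]
        rw [Finset.sum_eq_single (⟨l + 1, hlm⟩ : Fin m)]
        · simp
        · intro t _ ht
          rw [if_neg, Polynomial.eval_zero, zero_mul]
          intro h
          apply ht
          exact Fin.ext h
        · simp
      · simp only [if_neg hlm]
        have hlm' : (l : ℕ) + 1 = m := by have := l.2; omega
        rw [hlm']
        have h2 := hode j z
        rw [Finset.sum_range_succ, Finset.sum_range] at h2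
        have h3 : a = p j m * ∏ j' ∈ Finset.univ.erase j, p j' m := by
          rw [ha, Finset.mul_prod_erase _ (fun j' => p j' m) (Finset.mem_univ j)]
        have h4 : ∑ t : Fin m, (-((∏ j' ∈ Finset.univ.erase j, p j' m) * p j t)).eval z
            * iteratedDeriv t (g j).1 z
            = -((∏ j' ∈ Finset.univ.erase j, p j' m).eval z
              * ∑ t : Fin m, (p j t).eval z * iteratedDeriv t (g j).1 z) := by
          rw [Finset.mul_sum, ← Finset.sum_neg_distrib]
          apply Finset.sum_congr rfl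
          intro t _
          rw [Polynomial.eval_neg, Polynomial.eval_mul]
          ring
        rw [h4, h3, Polynomial.eval_mul]
        linear_combination (∏ j' ∈ Finset.univ.erase j, p j' m).eval z * h2
    · intro j' _ hj'
      apply Finset.sum_eq_zero
      intro t _
      rw [if_neg (Ne.symm hj'), Polynomial.eval_zero, zero_mul]
    · simp
  -- formal version
  have hytau : ∀ s, (a : ℂ⟦X⟧) * d⁄dX ℂ (tau (y s)) = ∑ t, (A s t : ℂ⟦X⟧) * tau (y t) := by
    intro s
    have hd : Differentiable ℂ (deriv (y s).1) := ((y s).2.contDiff (n := 2)).differentiable_deriv_two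
    have h1 : pE a * (⟨deriv (y s).1, hd⟩ : EE) = ∑ t, pE (A s t) * y t := by
      apply Subtype.ext
      funext z
      have h2 := hy s z
      have h3 : (∑ t, pE (A s t) * y t : EE).1 z = ∑ t, (A s t).eval z * (y t).1 z := by
        have := map_sum (evE z) (fun t => pE (A s t) * y t) Finset.univ
        exact this
      rw [h3, ← h2]
      rfl
    have h2 := congrArg tau h1
    rw [map_mul, map_sum, tau_pE] at h2
    have h3 : tau (⟨deriv (y s).1, hd⟩ : EE) = d⁄dX ℂ (tau (y s)) := tay_deriv
    rw [h3] at h2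
    rw [h2]
    apply Finset.sum_congr rfl
    intro t _
    rw [map_mul, tau_pE]
  have hau : IsUnit (a : ℂ⟦X⟧) := by
    rw [PowerSeries.isUnit_iff_constantCoeff, Polynomial.constantCoeff_coe,
      Polynomial.coeff_zero_eq_eval_zero]
    exact ha0.isUnit
  obtain ⟨b, hb⟩ := hau.exists_left_inv
  have hb' : (a : ℂ⟦X⟧) * b = 1 := by rw [mul_comm]; exact hb
  obtain ⟨Φ, hΦ1, -, hdet, hsol⟩ := exists_fundamental
    (fun s t => b * (A s t : ℂ⟦X⟧))
  have hΦ : ∀ i j, (a : ℂ⟦X⟧) * d⁄dX ℂ (Φ i j) = ∑ l, (A i l : ℂ⟦X⟧) * Φ l j := by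
    intro i j
    rw [hΦ1, Finset.mul_sum]
    apply Finset.sum_congr rfl
    intro l _
    rw [← mul_assoc, ← mul_assoc, hb', one_mul]
  have hysol := hsol (fun s => tau (y s)) (by
    intro s
    have h1 := hytau s
    calc d⁄dX ℂ (tau (y s)) = b * ((a : ℂ⟦X⟧) * d⁄dX ℂ (tau (y s))) := by
          rw [← mul_assoc, hb, one_mul]
      _ = _ := by
          rw [h1, Finset.mul_sum]
          apply Finset.sum_congr rfl
          intro t _
          rw [mul_assoc])
  set R : Fin N → Fin (N * m) := fun i => ix (i, ⟨0, hm⟩) with hR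
  set c : Fin (N * m) → ℂ := fun j => constantCoeff (tau (y j)) with hc
  have hyR : ∀ i, y (R i) = g i := by
    intro i
    apply Subtype.ext
    simp only [y, hR, Equiv.symm_apply_apply]
    exact iteratedDeriv_zero
  have hGG : ∀ i, ev Φ (GG R c i) = tau (g i) := by
    intro i
    rw [← hyR i, hysol (R i), GG, map_sum]
    apply Finset.sum_congr rfl
    intro j _
    rw [map_mul, ev_X, ev_C]
  have hF' : MvPolynomial.aeval (fun i => ev Φ (GG R c i)) (Fm x) = 0 := by
    simp only [hGG]
    rw [← aeval_comp_eq tau g (Fm x)]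
    have h1 : MvPolynomial.aeval g (Fm x) = 0 := by
      apply Subtype.ext
      funext z
      have h2 := aeval_comp_eq (evE z) g (Fm x)
      have h3 : (fun t => evE z (g t)) = fun i => (g i).1 z := rfl
      rw [h3] at h2
      have h4 := hF z
      rw [← MvPolynomial.coe_aeval_eq_eval] at h4
      have h5 : MvPolynomial.aeval (fun i => (g i).1 z) (Fm x) = 0 := h4
      rw [h5] at h2
      exact h2
    rw [h1, map_zero]
  have hgi' : ev Φ (GG R c i') ≠ 0 := by
    rw [hGG]
    intro h0
    obtain ⟨z, hz⟩ := hi'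
    exact hz (tay_zero (g i').2 h0 z)
  obtain ⟨Q, hQ0, hQ⟩ := algebraic_ratio hane Φ hΦ hdet hx hM he hMe R c hF' i i' hgi'
  rw [hGG, hGG] at hQ
  rw [hGG] at hgi'
  exact rational_of_algebraic (g i).2 (g i').2 hi' hQ0
    (fun z hz => transfer (g i) (g i') hgi' hQ z hz)

/-- **Holonomic curves on good hypersurfaces are rational** -/
theorem holo_struct {x : mons N d → ℂ} (hx : Good e x) {m : ℕ}
    (he : ∀ k ≤ N * (m + 1), ∀ a : Fin k → ℕ, ∃ b : Fin k → ℕ, SameType d a b ∧ ∀ j, b j ≤ e)
    (hMe : N * (m + 1) ≤ e) (g : ℂ → Fin N → ℂ) (hg : ∀ i, Differentiable ℂ (fun z => g z i))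
    (hode : ∀ i, Holo m (fun z => g z i))
    (hF : ∀ z, MvPolynomial.eval (g z) (Fm x) = 0) :
    ∃ (s : ℂ → ℂ) (r : Fin N → Polynomial ℂ), Differentiable ℂ s ∧
      (∃ u : Fin N → Polynomial ℂ, ∑ i, u i * r i = 1 ∨ ∀ z, s z = 0) ∧
      ∀ z i, g z i = s z * (r i).eval z := by
  classical
  by_cases hall : ∀ z i, g z i = 0
  · exact ⟨fun _ => 0, fun _ => 0, differentiable_const _, ⟨fun _ => 0, Or.inr fun _ => rfl⟩,
      fun z i => by rw [hall]; simp⟩
  push Not at hall
  obtain ⟨z₁, i₁, hz₁⟩ := hall
  choose p hp hp' using fun i => holo_top (hg i) (hode i) (m + 1) (Nat.le_succ m)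
  -- a regular point
  obtain ⟨z₀, hz₀⟩ : ∃ z₀, (∏ i, p i (m + 1)).eval z₀ ≠ 0 := by
    by_contra hcon
    push Not at hcon
    have : ∏ i, p i (m + 1) = 0 := Polynomial.funext fun z => by rw [hcon, Polynomial.eval_zero]
    exact Finset.prod_ne_zero_iff.mpr (fun i _ => hp i) this
  set g' : Fin N → EE := fun i => ⟨fun z => g (z + z₀) i,
    (hg i).comp ((differentiable_id).add_const z₀)⟩ with hg'
  have hshift : ∀ (q : Polynomial ℂ) (z : ℂ),
      (q.comp (Polynomial.X + Polynomial.C z₀)).eval z = q.eval (z + z₀) := by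
    intro q z
    rw [Polynomial.eval_comp, Polynomial.eval_add, Polynomial.eval_X, Polynomial.eval_C]
  have hi₁ : ∃ z, (g' i₁).1 z ≠ 0 := ⟨z₁ - z₀, by
    show g (z₁ - z₀ + z₀) i₁ ≠ 0
    rw [sub_add_cancel]
    exact hz₁⟩
  have hratio : ∀ i, ∃ P Q : Polynomial ℂ, Q ≠ 0 ∧
      ∀ z, Q.eval z * g z i = P.eval z * g z i₁ := by
    intro i
    obtain ⟨P, Q, hQ, hPQ⟩ := ratio_of_regular hx (Nat.succ_pos m) he hMe g'
      (fun i l => (p i l).comp (Polynomial.X + Polynomial.C z₀)) (by
        intro i
        rw [hshift, zero_add]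
        rw [Polynomial.eval_prod] at hz₀
        exact Finset.prod_ne_zero_iff.mp hz₀ i (Finset.mem_univ i)) (by
        intro i z
        have h1 := hp' i (z + z₀)
        rw [← h1]
        apply Finset.sum_congr rfl
        intro l _
        rw [hshift]
        congr 1
        have h2 := congrFun (iteratedDeriv_comp_add_const (n := l) (f := fun z => g z i) (s := z₀)) z
        exact h2) (by
        intro z
        exact hF (z + z₀)) i i₁ hi₁
    refine ⟨P.comp (Polynomial.X - Polynomial.C z₀), Q.comp (Polynomial.X - Polynomial.C z₀), ?_, ?_⟩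
    · intro h0
      apply hQ
      apply Polynomial.funext
      intro z
      have h1 := congrArg (Polynomial.eval (z + z₀)) h0
      rw [Polynomial.eval_comp, Polynomial.eval_zero] at h1
      simpa using h1
    · intro z
      have h1 := hPQ (z - z₀)
      rw [Polynomial.eval_comp, Polynomial.eval_comp]
      simp only [Polynomial.eval_sub, Polynomial.eval_X, Polynomial.eval_C]
      have h2 : ∀ i, (g' i).1 (z - z₀) = g z i := by
        intro i
        show g (z - z₀ + z₀) i = g z i
        rw [sub_add_cancel]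
      rw [h2, h2] at h1
      exact h1
  choose P Q hQ hPQ using hratio
  set q : Polynomial ℂ := ∏ i, Q i with hq
  have hq0 : q ≠ 0 := Finset.prod_ne_zero_iff.mpr fun i _ => hQ i
  set H : Fin N → Polynomial ℂ := fun i => (∏ j ∈ Finset.univ.erase i, Q j) * P i with hH
  have hqH : ∀ z i, q.eval z * g z i = (H i).eval z * g z i₁ := by
    intro z i
    have h1 : q = Q i * ∏ j ∈ Finset.univ.erase i, Q j := by
      rw [hq, Finset.mul_prod_erase _ (fun j => Q j) (Finset.mem_univ i)]
    rw [h1]
    simp only [hH, Polynomial.eval_mul]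
    linear_combination (∏ j ∈ Finset.univ.erase i, Q j).eval z * hPQ i z
  have hne₁ : ∃ z, (fun z => g z i₁) z ≠ 0 := ⟨z₁, hz₁⟩
  have hqne : ∃ z, (fun z => q.eval z) z ≠ 0 := by
    by_contra hcon
    push Not at hcon
    exact hq0 (Polynomial.funext fun z => by rw [Polynomial.eval_zero]; exact hcon z)
  have hH0 : H ≠ 0 := by
    intro h0
    apply hz₁
    have h1 : ∀ z, (fun z => q.eval z) z ≠ 0 → g z i₁ = 0 := by
      intro z hz
      have := hqH z i₁
      rw [h0] at this
      simp only [Pi.zero_apply, Polynomial.eval_zero, zero_mul] at this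
      exact (mul_eq_zero.mp this).resolve_left hz
    exact of_ne q.differentiable hqne (P := fun z => g z i₁ = 0)
      (isClosed_eq (hg i₁).continuous continuous_const) h1 z₁
  obtain ⟨G, r, hG0, hGr, u, hu⟩ := exists_primitive H hH0
  set s : ℂ → ℂ := fun z => ∑ i, (u i).eval z * g z i with hs
  have hsd : Differentiable ℂ s := by
    simp only [hs]
    apply Differentiable.fun_sum
    intro i _
    exact (u i).differentiable.mul (hg i)
  have hu' : ∀ z, ∑ i, (u i).eval z * (r i).eval z = 1 := by
    intro z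
    have := congrArg (Polynomial.eval z) hu
    rw [Polynomial.eval_finsetSum, Polynomial.eval_one] at this
    simpa only [Polynomial.eval_mul] using this
  have hqs : ∀ z, q.eval z * s z = G.eval z * g z i₁ := by
    intro z
    simp only [hs]
    rw [Finset.mul_sum]
    calc ∑ i, q.eval z * ((u i).eval z * g z i)
        = ∑ i, (u i).eval z * (q.eval z * g z i) := by
          apply Finset.sum_congr rfl
          intro i _
          ring
      _ = (∑ i, (u i).eval z * (r i).eval z) * (G.eval z * g z i₁) := by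
          rw [Finset.sum_mul]
          apply Finset.sum_congr rfl
          intro i _
          rw [hqH, hGr, Polynomial.eval_mul]
          ring
      _ = _ := by rw [hu', one_mul]
  refine ⟨s, r, hsd, ⟨u, Or.inl hu⟩, fun z i => ?_⟩
  refine of_ne q.differentiable hqne (P := fun z => g z i = s z * (r i).eval z)
    (isClosed_eq (hg i).continuous (hsd.continuous.mul (r i).continuous)) ?_ z
  intro z hz
  have h1 := hqH z i
  rw [hGr, Polynomial.eval_mul] at h1
  have h2 := hqs z
  apply mul_left_cancel₀ (show q.eval z ≠ 0 from hz)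
  rw [h1]
  linear_combination -(r i).eval z * h2

end

end Pool.Agent.H13.Hol
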