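import Mathlib

/-!
# Solutions of linear systems `g' = A g` with constant coefficients
-/

namespace Pool.Agent.H13.Hol

/-- uniqueness for `u' = A u` -/
lemma ode_unique {N : ℕ} (f : Module.End ℂ (Fin N → ℂ)) {u : ℂ → Fin N → ℂ}
    (hu : ∀ z, HasDerivAt u (f (u z)) z) (h0 : u 0 = 0) (z : ℂ) : u z = 0 := by
  have hd : Differentiable ℂ u := fun z => (hu z).differentiableAt
  have hder : ∀ n : ℕ, iteratedDeriv n u = fun z => (f ^ n) (u z) := by
    intro n
    induction n with
    | zero => funext z; simp
    | succ n ih =>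
      rw [iteratedDeriv_succ, ih]
      funext z
      have h1 : HasDerivAt (fun z => (f ^ n) (u z)) ((f ^ n) (f (u z))) z := by
        have h2 : HasDerivAt (fun z => (LinearMap.toContinuousLinearMap (f ^ n)) (u z))
            ((LinearMap.toContinuousLinearMap (f ^ n)) (f (u z))) z :=
          (LinearMap.toContinuousLinearMap (f ^ n)).hasFDerivAt.comp_hasDerivAt z (hu z)
        exact h2
      rw [h1.deriv, pow_succ]
      rfl
  rw [← Complex.taylorSeries_eq_of_entire hd 0 z]
  have : ∀ n : ℕ, iteratedDeriv n u 0 = 0 := by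
    intro n
    rw [hder n]
    simp [h0]
  simp [this]

/-- the solution through a generalised eigenvector -/
noncomputable def sol {N : ℕ} (f : Module.End ℂ (Fin N → ℂ)) (lam : ℂ) (v : Fin N → ℂ) (K : ℕ)
    (z : ℂ) : Fin N → ℂ :=
  ∑ k ∈ Finset.range K, ((z ^ k / (k.factorial : ℂ)) * Complex.exp (lam * z)) •
    ((f - lam • (1 : Module.End ℂ (Fin N → ℂ))) ^ k) v

lemma sol_zero {N : ℕ} (f : Module.End ℂ (Fin N → ℂ)) (lam : ℂ) (v : Fin N → ℂ) {K : ℕ}
    (hK : 0 < K) : sol f lam v K 0 = v := by
  unfold sol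
  rw [Finset.sum_eq_single_of_mem 0 (Finset.mem_range.mpr hK)]
  · simp
  · intro k _ hk
    simp [hk]

lemma sol_hasDerivAt {N : ℕ} (f : Module.End ℂ (Fin N → ℂ)) (lam : ℂ) (v : Fin N → ℂ) {K : ℕ}
    (hK : ((f - lam • (1 : Module.End ℂ (Fin N → ℂ))) ^ K) v = 0) (z : ℂ) :
    HasDerivAt (sol f lam v K) (f (sol f lam v K z)) z := by
  set n := f - lam • (1 : Module.End ℂ (Fin N → ℂ)) with hn
  have hf : ∀ w, f w = n w + lam • w := by
    intro w
    simp [hn]
  -- derivative of scalar coefficients
  have hcoef : ∀ k : ℕ, HasDerivAt (fun z : ℂ => (z ^ k / (k.factorial : ℂ)) * Complex.exp (lam * z))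
      ((k * z ^ (k - 1) / (k.factorial : ℂ)) * Complex.exp (lam * z)
        + (z ^ k / (k.factorial : ℂ)) * (Complex.exp (lam * z) * lam)) z := by
    intro k
    have h1 : HasDerivAt (fun z : ℂ => z ^ k / (k.factorial : ℂ)) (k * z ^ (k - 1) / (k.factorial : ℂ)) z :=
      (hasDerivAt_pow k z).div_const _
    have h2 : HasDerivAt (fun z : ℂ => Complex.exp (lam * z)) (Complex.exp (lam * z) * lam) z := by
      have := ((hasDerivAt_id z).const_mul lam).cexp
      simpa using this
    exact h1.mul h2
  have hsum : HasDerivAt (sol f lam v K)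
      (∑ k ∈ Finset.range K, ((k * z ^ (k - 1) / (k.factorial : ℂ)) * Complex.exp (lam * z)
        + (z ^ k / (k.factorial : ℂ)) * (Complex.exp (lam * z) * lam)) • (n ^ k) v) z := by
    unfold sol
    apply HasDerivAt.fun_sum
    intro k _
    exact (hcoef k).smul_const _
  have heq : (∑ k ∈ Finset.range K, ((k * z ^ (k - 1) / (k.factorial : ℂ)) * Complex.exp (lam * z)
        + (z ^ k / (k.factorial : ℂ)) * (Complex.exp (lam * z) * lam)) • (n ^ k) v)
      = f (sol f lam v K z) := by
    rw [hf]
    unfold sol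
    rw [map_sum, Finset.smul_sum]
    simp only [add_smul, Finset.sum_add_distrib]
    congr 1
    · -- shift
      rcases Nat.eq_zero_or_pos K with rfl | hKpos
      · simp
      · obtain ⟨M, rfl⟩ : ∃ M, K = M + 1 := ⟨K - 1, by omega⟩
        rw [Finset.sum_range_succ', Finset.sum_range_succ]
        simp only [map_smul, ← hn, ← Module.End.mul_apply, ← pow_succ']
        rw [hK, smul_zero, add_zero]
        simp only [Nat.cast_zero, zero_mul, zero_div, zero_smul, add_zero, Nat.add_sub_cancel]
        apply Finset.sum_congr rfl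
        intro k _
        congr 1
        rw [Nat.factorial_succ]
        push_cast
        have h1 : ((k:ℂ) + 1) ≠ 0 := by exact_mod_cast Nat.succ_ne_zero k
        have h2 : (k.factorial : ℂ) ≠ 0 := by exact_mod_cast Nat.factorial_ne_zero k
        field_simp
    · apply Finset.sum_congr rfl
      intro k _
      rw [smul_smul]
      congr 1
      ring
  rw [heq] at hsum
  exact hsum

end Pool.Agent.H13.Hol
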