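import Pool.Agent.H13.Hol.Tangent
import Pool.Agent.H13.Hol.Sol
import Pool.Agent.H13.Kob.ExpFinal

/-!
# Flows of constant matrices
-/

namespace Pool.Agent.H13.Hol

open Pool.Agent.H13.CEV Pool.Agent.H13.Kob

section exp

variable {M : ℕ}

open scoped Matrix.Norms.Operator in
lemma exists_exp (m : Matrix (Fin M) (Fin M) ℂ) : ∃ E : ℂ → Matrix (Fin M) (Fin M) ℂ,
    (∀ i j, E 0 i j = if i = j then 1 else 0) ∧
    (∀ t i j, HasDerivAt (fun t => E t i j) (∑ l, E t i l * m l j) t) ∧
    (∀ t i j, HasDerivAt (fun t => E t i j) (∑ l, m i l * E t l j) t) := by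
  refine ⟨fun t => NormedSpace.exp (t • m), ?_, ?_, ?_⟩
  · intro i j
    dsimp only
    rw [zero_smul, NormedSpace.exp_zero, Matrix.one_apply]
  · intro t i j
    have h1 := hasDerivAt_exp_smul_const m t
    have h2 := (LinearMap.toContinuousLinearMap (Matrix.entryLinearMap ℂ ℂ i j)).hasFDerivAt.comp_hasDerivAt
      t h1
    have h3 : (Matrix.entryLinearMap ℂ ℂ i j) (NormedSpace.exp (t • m) * m)
        = ∑ l, NormedSpace.exp (t • m) i l * m l j := by
      rw [Matrix.entryLinearMap_apply, Matrix.mul_apply]
    dsimp only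
    rw [← h3]
    exact h2
  · intro t i j
    have h1 := hasDerivAt_exp_smul_const' m t
    have h2 := (LinearMap.toContinuousLinearMap (Matrix.entryLinearMap ℂ ℂ i j)).hasFDerivAt.comp_hasDerivAt
      t h1
    have h3 : (Matrix.entryLinearMap ℂ ℂ i j) (m * NormedSpace.exp (t • m))
        = ∑ l, m i l * NormedSpace.exp (t • m) l j := by
      rw [Matrix.entryLinearMap_apply, Matrix.mul_apply]
    dsimp only
    rw [← h3]
    exact h2

end exp

/-- solutions of `u' = f u` are exponential sums with boundedly many terms of bounded degree -/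
lemma exp_decomp {M : ℕ} (hM : 0 < M) (f : Module.End ℂ (Fin M → ℂ)) {u : ℂ → Fin M → ℂ}
    (hu : ∀ z, HasDerivAt u (f (u z)) z) :
    ∃ k ≤ M, ∃ (φ : Fin k → ℂ) (q : Fin k → Fin M → Polynomial ℂ),
      (∀ j i, (q j i).natDegree ≤ M) ∧
      ∀ z i, u z i = ∑ j, Complex.exp (φ j * z) * (q j i).eval z := by
  classical
  obtain ⟨w, hw, hwsum⟩ := (Submodule.mem_iSup_iff_exists_finsupp f.maxGenEigenspace (u 0)).mp (by
    rw [Module.End.iSup_maxGenEigenspace_eq_top]; trivial)
  have hK : ∀ lam, ((f - lam • (1 : Module.End ℂ (Fin M → ℂ))) ^ M) (w lam) = 0 := by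
    intro lam
    have h1 := hw lam
    rw [Module.End.maxGenEigenspace_eq_genEigenspace_finrank, Module.finrank_fin_fun,
      Module.End.mem_genEigenspace_nat] at h1
    exact h1
  have husum : ∀ z, u z = ∑ lam ∈ w.support, sol f lam (w lam) M z := by
    intro z
    have h1 := ode_unique f (u := fun z => u z - ∑ lam ∈ w.support, sol f lam (w lam) M z)
      (by
        intro z
        rw [map_sub, map_sum]
        apply (hu z).sub
        apply HasDerivAt.fun_sum
        intro lam _
        exact sol_hasDerivAt f lam (w lam) (hK lam) z)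
      (by
        have : ∑ lam ∈ w.support, sol f lam (w lam) M 0 = ∑ lam ∈ w.support, w lam := by
          apply Finset.sum_congr rfl
          intro lam _
          exact sol_zero f lam (w lam) hM
        simp only [this]
        rw [← hwsum, Finsupp.sum, sub_self]) z
    exact sub_eq_zero.mp h1
  have hcard : w.support.card ≤ M := by
    have h1 : LinearIndependent ℂ (fun lam : w.support => w lam) := by
      have h2 := (Module.End.independent_maxGenEigenspace f)
      have h3 := h2.comp (f := fun lam : w.support => (lam : ℂ)) Subtype.val_injective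
      exact iSupIndep.linearIndependent _ h3 (fun lam => hw lam)
        (fun lam => Finsupp.mem_support_iff.mp lam.2)
    have h2 := h1.fintype_card_le_finrank
    rw [Module.finrank_fin_fun, Fintype.card_coe] at h2
    exact h2
  refine ⟨w.support.card, hcard, fun j => (w.support.equivFin.symm j : ℂ), fun j i =>
    ∑ k ∈ Finset.range M, Polynomial.C ((k.factorial : ℂ)⁻¹ *
      ((f - (w.support.equivFin.symm j : ℂ) • (1 : Module.End ℂ (Fin M → ℂ))) ^ k)
        (w (w.support.equivFin.symm j)) i) * Polynomial.X ^ k, ?_, ?_⟩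
  · intro j i
    apply Polynomial.natDegree_sum_le_of_forall_le
    intro k hk
    refine (Polynomial.natDegree_C_mul_X_pow_le _ _).trans ?_
    have := Finset.mem_range.mp hk
    omega
  · intro z i
    rw [husum z, Finset.sum_apply, ← Finset.sum_coe_sort,
      ← Equiv.sum_comp w.support.equivFin.symm]
    apply Finset.sum_congr rfl
    intro j _
    unfold sol
    rw [Finset.sum_apply, Polynomial.eval_finsetSum, Finset.mul_sum]
    apply Finset.sum_congr rfl
    intro k _
    simp only [Pi.smul_apply, smul_eq_mul, Polynomial.eval_mul, Polynomial.eval_C,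
      Polynomial.eval_pow, Polynomial.eval_X]
    ring

section numeric

variable {N M d e : ℕ}

/-- orbits of linear flows on good hypersurfaces -/
theorem numeric_flow {x : mons N d → ℂ} (hx : Good e x) (hM : 0 < M)
    (he : ∀ k ≤ M, ∀ a : Fin k → ℕ, ∃ b : Fin k → ℕ, SameType d a b ∧ ∀ j, b j ≤ e)
    (hMe : M ≤ e) (m : Fin M → Fin M → ℂ) (u : ℂ → Fin M → ℂ)
    (hu : ∀ t i, HasDerivAt (fun t => u t i) (∑ l, m i l * u t l) t)
    (L : Fin N → Fin M → ℂ)
    (hF : ∀ t, MvPolynomial.eval (fun i => ∑ j, L i j * u t j) (Fm x) = 0) (i i' : Fin N) :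
    (∑ j, L i j * u 0 j) * (∑ j, L i' j * ∑ l, m j l * u 0 l)
      = (∑ j, L i' j * u 0 j) * (∑ j, L i j * ∑ l, m j l * u 0 l) := by
  classical
  have hu' : ∀ t, HasDerivAt u (Matrix.toLin' (Matrix.of m) (u t)) t := by
    intro t
    rw [hasDerivAt_pi]
    intro i
    have h1 := hu t i
    have h2 : (Matrix.toLin' (Matrix.of m) (u t)) i = ∑ l, m i l * u t l := by
      rw [Matrix.toLin'_apply]
      rfl
    rw [h2]
    exact h1
  obtain ⟨k, hk, φ, q, hq, hsum⟩ := exp_decomp hM _ hu'
  have hsum' : ∀ z i, ∑ j, Complex.exp (φ j * z)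
      * (∑ l, Polynomial.C (L i l) * q j l).eval z = ∑ j, L i j * u z j := by
    intro z i
    simp only [hsum, Polynomial.eval_finsetSum, Polynomial.eval_mul, Polynomial.eval_C,
      Finset.mul_sum]
    rw [Finset.sum_comm]
    apply Finset.sum_congr rfl
    intro l _
    apply Finset.sum_congr rfl
    intro j _
    ring
  obtain ⟨-, h2⟩ := expsum hx (he k hk) (fun j z => φ j * z)
    (fun j => (differentiable_const _).mul differentiable_id)
    (fun j i => ∑ l, Polynomial.C (L i l) * q j l) (by
      intro z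
      simp only [hsum']
      exact hF z)
  obtain ⟨s, c, hs, hsc⟩ := h2 (by
    intro j i
    apply Polynomial.natDegree_sum_le_of_forall_le
    intro l _
    exact (Polynomial.natDegree_C_mul_le _ _).trans ((hq j l).trans hMe))
  simp only [hsum'] at hsc
  have hder : ∀ i, ∑ j, L i j * ∑ l, m j l * u 0 l = deriv s 0 * c i := by
    intro i
    have h3 : HasDerivAt (fun z => ∑ j, L i j * u z j) (∑ j, L i j * ∑ l, m j l * u 0 l) 0 := by
      apply HasDerivAt.fun_sum
      intro j _
      exact (hu 0 j).const_mul _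
    have h4 : HasDerivAt (fun z => s z * c i) (deriv s 0 * c i) 0 :=
      (hs 0).hasDerivAt.mul_const _
    have h5 : (fun z => ∑ j, L i j * u z j) = fun z => s z * c i := funext fun z => hsc z i
    rw [h5] at h3
    exact h3.unique h4
  rw [hsc, hsc, hder, hder]
  ring

end numeric

end Pool.Agent.H13.Hol
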