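import Pool.Agent.H13.Hol.Alg
import Pool.Agent.H13.Hol.Flow

/-!
# The differential Galois Lie algebra acts trivially on the projectivised solution
-/

namespace Pool.Agent.H13.Hol

open PowerSeries Pool.Agent.H13.CEV Pool.Agent.H13.Kob

variable {M : ℕ}

/-- the coefficients of the vector field `Y ↦ Y m` -/
noncomputable def cM (m : Fin M → Fin M → ℂ) : Option (Fin M × Fin M) → QM M
  | none => 0
  | some s => ∑ l, MvPolynomial.X (some (s.1, l)) * MvPolynomial.C (m l s.2)

lemma ev_X (Φ : Fin M → Fin M → ℂ⟦X⟧) (i j : Fin M) :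
    ev Φ (MvPolynomial.X (some (i, j))) = Φ i j := by
  rw [ev, MvPolynomial.aeval_X]
  rfl

lemma ev_C (Φ : Fin M → Fin M → ℂ⟦X⟧) (c : ℂ) : ev Φ (MvPolynomial.C c) = C c := by
  have h := (ev Φ).commutes c
  exact h

/-- the values of the vector field at `Φ` -/
lemma io_ev_vf (Φ : Fin M → Fin M → ℂ⟦X⟧) (m : Fin M → Fin M → ℂ) (P : QM M) :
    io (ev Φ (vf (cM m) P)) = ∑ s, io (ev Φ (MvPolynomial.pderiv (some s) P))
      * mulΦ Φ (fun s => algebraMap ℂ KK (m s.1 s.2)) s := by
  rw [vf, map_sum, Fintype.sum_option, map_add, map_sum]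
  have h0 : (cM m none : QM M) = 0 := rfl
  rw [h0, zero_mul, map_zero, map_zero, zero_add]
  apply Finset.sum_congr rfl
  intro s _
  rw [map_mul, map_mul, mul_comm]
  congr 1
  simp only [cM, mulΦ, map_sum, map_mul, ev_X, ev_C]
  rfl

lemma vf_mem_ker (Φ : Fin M → Fin M → ℂ⟦X⟧) (m : Fin M → Fin M → ℂ)
    (hm : (fun s : Fin M × Fin M => algebraMap ℂ KK (m s.1 s.2)) ∈ VV Φ) {P : QM M}
    (hP : ev Φ P = 0) : ev Φ (vf (cM m) P) = 0 := by
  have h1 := hm P hP
  have h2 := io_ev_vf Φ m P
  rw [h1] at h2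
  have hioinj : Function.Injective io := IsFractionRing.injective ℂ⟦X⟧ KK
  exact hioinj (by rw [h2, map_zero])

/-- chain rule along curves -/
lemma hasDerivAt_aeval {τ : Type*} [Fintype τ] (γ : ℂ → τ → ℂ) (γ' : τ → ℂ) (t : ℂ)
    (hγ : ∀ s, HasDerivAt (fun t => γ t s) (γ' s) t) (P : MvPolynomial τ ℂ) :
    HasDerivAt (fun t => MvPolynomial.aeval (γ t) P)
      (∑ s, γ' s * MvPolynomial.aeval (γ t) (MvPolynomial.pderiv s P)) t := by
  classical
  induction P using MvPolynomial.induction_on with
  | C a =>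
    simp only [MvPolynomial.aeval_C, MvPolynomial.pderiv_C, map_zero, mul_zero,
      Finset.sum_const_zero]
    exact hasDerivAt_const _ _
  | add p q hp hq =>
    simp only [map_add, mul_add, Finset.sum_add_distrib]
    exact hp.add hq
  | mul_X p i hp =>
    have h1 := hp.mul (hγ i)
    have h2 : ∑ s, γ' s * MvPolynomial.aeval (γ t) (MvPolynomial.pderiv s (p * MvPolynomial.X i))
        = (∑ s, γ' s * MvPolynomial.aeval (γ t) (MvPolynomial.pderiv s p)) * γ t i
          + MvPolynomial.aeval (γ t) p * γ' i := by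
      simp only [MvPolynomial.pderiv_mul, map_add, map_mul, MvPolynomial.aeval_X, mul_add,
        Finset.sum_add_distrib, Finset.sum_mul]
      congr 1
      · apply Finset.sum_congr rfl
        intro s _
        ring
      · rw [Finset.sum_eq_single i]
        · simp; ring
        · intro s _ hs
          rw [MvPolynomial.pderiv_X_of_ne (Ne.symm hs)]
          simp
        · simp
    rw [h2]
    have h3 : (fun t => MvPolynomial.aeval (γ t) (p * MvPolynomial.X i))
        = fun t => MvPolynomial.aeval (γ t) p * γ t i := by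
      funext t
      rw [map_mul, MvPolynomial.aeval_X]
    rw [h3]
    exact h1

/-- the flow of `vf (cM m)` preserves the zero set -/
lemma flow_zero (Φ : Fin M → Fin M → ℂ⟦X⟧) (m : Fin M → Fin M → ℂ)
    (hm : (fun s : Fin M × Fin M => algebraMap ℂ KK (m s.1 s.2)) ∈ VV Φ)
    {E : ℂ → Matrix (Fin M) (Fin M) ℂ} (hE0 : ∀ i j, E 0 i j = if i = j then 1 else 0)
    (hE : ∀ t i j, HasDerivAt (fun t => E t i j) (∑ l, E t i l * m l j) t)
    (b : Option (Fin M × Fin M) → ℂ) (hb : ∀ P : QM M, ev Φ P = 0 → MvPolynomial.aeval b P = 0)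
    (P : QM M) (hP : ev Φ P = 0) (t : ℂ) :
    MvPolynomial.aeval (pt (b none) fun i j => ∑ l, b (some (i, l)) * E t l j) P = 0 := by
  set γ : ℂ → Option (Fin M × Fin M) → ℂ :=
    fun t => pt (b none) fun i j => ∑ l, b (some (i, l)) * E t l j with hγ
  have hγd : ∀ t s, HasDerivAt (fun t => γ t s) (MvPolynomial.aeval (γ t) (cM m s)) t := by
    intro t s
    rcases s with _ | ⟨i, j⟩
    · simp only [hγ, pt, cM, map_zero]
      exact hasDerivAt_const _ _
    · have h1 : MvPolynomial.aeval (γ t) (cM m (some (i, j)))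
          = ∑ l, b (some (i, l)) * ∑ l', E t l l' * m l' j := by
        simp only [hγ, cM, map_sum, map_mul, MvPolynomial.aeval_X, MvPolynomial.aeval_C, pt,
          Finset.sum_mul, Finset.mul_sum]
        rw [Finset.sum_comm]
        apply Finset.sum_congr rfl
        intro l _
        apply Finset.sum_congr rfl
        intro l' _
        simp only [Algebra.algebraMap_self, RingHom.id_apply]
        ring
      rw [h1]
      simp only [hγ, pt]
      apply HasDerivAt.fun_sum
      intro l _
      exact (hE t l j).const_mul _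
  have hder : ∀ Q : QM M, ∀ t, HasDerivAt (fun t => MvPolynomial.aeval (γ t) Q)
      (MvPolynomial.aeval (γ t) (vf (cM m) Q)) t := by
    intro Q t
    have h1 := hasDerivAt_aeval γ (fun s => MvPolynomial.aeval (γ t) (cM m s)) t (hγd t) Q
    have h2 : MvPolynomial.aeval (γ t) (vf (cM m) Q) = ∑ s, MvPolynomial.aeval (γ t) (cM m s)
        * MvPolynomial.aeval (γ t) (MvPolynomial.pderiv s Q) := by
      rw [vf, map_sum]
      apply Finset.sum_congr rfl
      intro s _
      rw [map_mul]
    rw [h2]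
    exact h1
  have hγ0 : γ 0 = b := by
    funext s
    rcases s with _ | ⟨i, j⟩
    · rfl
    · simp only [hγ, pt, hE0]
      simp
  have hit : ∀ n : ℕ, ev Φ ((vf (cM m))^[n] P) = 0 := by
    intro n
    induction n with
    | zero => exact hP
    | succ n ih =>
      rw [Function.iterate_succ_apply']
      exact vf_mem_ker Φ m hm ih
  have hders : ∀ n : ℕ, iteratedDeriv n (fun t => MvPolynomial.aeval (γ t) P)
      = fun t => MvPolynomial.aeval (γ t) ((vf (cM m))^[n] P) := by
    intro n
    induction n with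
    | zero => funext t; simp
    | succ n ih =>
      rw [iteratedDeriv_succ, ih]
      funext t
      rw [(hder _ t).deriv, Function.iterate_succ_apply']
  have hd : Differentiable ℂ (fun t => MvPolynomial.aeval (γ t) P) :=
    fun t => (hder P t).differentiableAt
  have hT := Complex.taylorSeries_eq_of_entire hd 0 t
  have hgoal : MvPolynomial.aeval (γ t) P = 0 → MvPolynomial.aeval
      (pt (b none) fun i j => ∑ l, b (some (i, l)) * E t l j) P = 0 := fun h => h
  apply hgoal
  rw [← hT]
  have h0 : ∀ n : ℕ, iteratedDeriv n (fun t => MvPolynomial.aeval (γ t) P) 0 = 0 := by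
    intro n
    rw [hders n]
    simp only [hγ0]
    exact hb _ (hit n)
  simp only [h0, smul_zero, tsum_zero]

section

variable {N d e : ℕ}

/-- the coordinates of the solution, as polynomials -/
noncomputable def GG (R : Fin N → Fin M) (c : Fin M → ℂ) (i : Fin N) : QM M :=
  ∑ j, MvPolynomial.X (some (R i, j)) * MvPolynomial.C (c j)

lemma aeval_GG (R : Fin N → Fin M) (c : Fin M → ℂ) (i : Fin N)
    (b : Option (Fin M × Fin M) → ℂ) :
    MvPolynomial.aeval b (GG R c i) = ∑ j, b (some (R i, j)) * c j := by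
  simp [GG]

lemma vf_GG (m : Fin M → Fin M → ℂ) (R : Fin N → Fin M) (c : Fin M → ℂ) (i : Fin N) :
    vf (cM m) (GG R c i)
      = ∑ l, MvPolynomial.X (some (R i, l)) * MvPolynomial.C (∑ j, m l j * c j) := by
  classical
  have h1 : ∀ t, MvPolynomial.pderiv t (GG R c i)
      = ∑ j, if t = some (R i, j) then MvPolynomial.C (c j) else 0 := by
    intro t
    rw [GG, map_sum]
    apply Finset.sum_congr rfl
    intro j _
    rw [MvPolynomial.pderiv_mul, MvPolynomial.pderiv_C, mul_zero, add_zero]
    split_ifs with h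
    · rw [← h, MvPolynomial.pderiv_X_self, one_mul]
    · rw [MvPolynomial.pderiv_X_of_ne (fun h' => h h'.symm), zero_mul]
  rw [vf]
  simp only [h1, Finset.mul_sum, mul_ite, mul_zero]
  rw [Finset.sum_comm]
  have h2 : ∀ j : Fin M, ∑ x, (if x = some (R i, j) then cM m x * MvPolynomial.C (c j) else 0)
      = cM m (some (R i, j)) * MvPolynomial.C (c j) := by
    intro j
    rw [Finset.sum_ite_eq' Finset.univ (some (R i, j))]
    simp
  rw [Finset.sum_congr rfl (fun j _ => h2 j)]
  simp only [cM, Finset.sum_mul, map_sum, Finset.mul_sum]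
  rw [Finset.sum_comm]
  apply Finset.sum_congr rfl
  intro l _
  apply Finset.sum_congr rfl
  intro j _
  rw [map_mul]
  ring

/-- the minors vanish along the vector fields of the Galois Lie algebra -/
lemma minor_const (Φ : Fin M → Fin M → ℂ⟦X⟧) {x : mons N d → ℂ} (hx : Good e x) (hM : 0 < M)
    (he : ∀ k ≤ M, ∀ a : Fin k → ℕ, ∃ b : Fin k → ℕ, SameType d a b ∧ ∀ j, b j ≤ e)
    (hMe : M ≤ e) (R : Fin N → Fin M) (c : Fin M → ℂ)
    (hF : MvPolynomial.aeval (fun i => ev Φ (GG R c i)) (Fm x) = 0)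
    (m : Fin M → Fin M → ℂ)
    (hm : (fun s : Fin M × Fin M => algebraMap ℂ KK (m s.1 s.2)) ∈ VV Φ) (i i' : Fin N) :
    ev Φ (GG R c i) * ev Φ (vf (cM m) (GG R c i'))
      = ev Φ (GG R c i') * ev Φ (vf (cM m) (GG R c i)) := by
  classical
  set I : Ideal (QM M) := RingHom.ker (ev Φ : QM M →+* ℂ⟦X⟧) with hI
  have hIp : I.IsPrime := RingHom.ker_isPrime _
  have hmem : ∀ P, P ∈ I ↔ ev Φ P = 0 := fun P => RingHom.mem_ker
  obtain ⟨E, hE0, hE1, hE2⟩ := exists_exp (Matrix.of m)
  set PF : QM M := MvPolynomial.aeval (fun i => GG R c i) (Fm x) with hPF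
  have hPFev : ev Φ PF = 0 := by
    rw [hPF, aeval_comp_eq]
    exact hF
  set q : QM M := GG R c i * vf (cM m) (GG R c i') - GG R c i' * vf (cM m) (GG R c i) with hq
  have hqI : q ∈ MvPolynomial.vanishingIdeal ℂ (MvPolynomial.zeroLocus ℂ I) := by
    rw [MvPolynomial.mem_vanishingIdeal_iff]
    intro b hb
    rw [MvPolynomial.mem_zeroLocus_iff] at hb
    have hb' : ∀ P : QM M, ev Φ P = 0 → MvPolynomial.aeval b P = 0 := fun P hP =>
      hb P ((hmem P).mpr hP)
    have h1 : ∀ t, MvPolynomial.eval (fun i => ∑ j, b (some (R i, j)) * ∑ l, E t j l * c l)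
        (Fm x) = 0 := by
      intro t
      have h2 := flow_zero Φ m hm hE0 hE1 b hb' PF hPFev t
      rw [hPF, aeval_comp_eq] at h2
      have h3 : (fun i => MvPolynomial.aeval
          (pt (b none) fun i j => ∑ l, b (some (i, l)) * E t l j) (GG R c i))
          = fun i => ∑ j, b (some (R i, j)) * ∑ l, E t j l * c l := by
        funext i
        rw [aeval_GG]
        simp only [pt, Finset.sum_mul, Finset.mul_sum]
        rw [Finset.sum_comm]
        apply Finset.sum_congr rfl
        intro l _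
        apply Finset.sum_congr rfl
        intro j _
        ring
      rw [h3] at h2
      rw [← MvPolynomial.coe_aeval_eq_eval]
      exact h2
    have h4 := numeric_flow hx hM he hMe m (fun t j => ∑ l, E t j l * c l) (by
      intro t j
      have h5 : ∑ l, m j l * ∑ l', E t l l' * c l' = ∑ l', (∑ l, m j l * E t l l') * c l' := by
        simp only [Finset.mul_sum, Finset.sum_mul]
        rw [Finset.sum_comm]
        apply Finset.sum_congr rfl
        intro l _
        apply Finset.sum_congr rfl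
        intro l' _
        ring
      rw [h5]
      apply HasDerivAt.fun_sum
      intro l _
      exact (hE2 t j l).mul_const _) (fun i j => b (some (R i, j))) h1 i i'
    have h5 : ∀ l, ∑ l', E 0 l l' * c l' = c l := by
      intro l
      simp [hE0]
    simp only [h5] at h4
    rw [hq, map_sub, map_mul, map_mul, vf_GG, vf_GG]
    simp only [aeval_GG, map_sum, map_mul, MvPolynomial.aeval_X, MvPolynomial.aeval_C,
      Algebra.algebraMap_self, RingHom.id_apply]
    exact sub_eq_zero.mpr h4
  rw [MvPolynomial.vanishingIdeal_zeroLocus_eq_radical, hIp.radical] at hqI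
  have h6 := (hmem q).mp hqI
  rw [hq, map_sub, map_mul, map_mul] at h6
  exact sub_eq_zero.mp h6

/-- invertibility of `Φ` over the fraction field -/
lemma exists_inv (Φ : Fin M → Fin M → ℂ⟦X⟧) (hdet : IsUnit (Matrix.of Φ).det)
    (W : Fin M × Fin M → KK) : ∃ U, W = mulΦ Φ U := by
  classical
  set B : Matrix (Fin M) (Fin M) KK := (Matrix.of Φ).map io with hB
  have hBdet : IsUnit B.det := by
    have : B.det = io (Matrix.of Φ).det := by
      rw [RingHom.map_det]
      rfl
    rw [this]
    exact hdet.map io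
  refine ⟨fun s => ∑ l, B⁻¹ s.1 l * W (l, s.2), ?_⟩
  funext s
  obtain ⟨i, j⟩ := s
  simp only [mulΦ, Finset.mul_sum]
  rw [Finset.sum_comm]
  have h1 : ∀ l', ∑ l, io (Φ i l) * (B⁻¹ l l' * W (l', j)) = (B * B⁻¹) i l' * W (l', j) := by
    intro l'
    rw [Matrix.mul_apply, Finset.sum_mul]
    apply Finset.sum_congr rfl
    intro l _
    rw [← mul_assoc]
    rfl
  simp only [h1, Matrix.mul_nonsing_inv _ hBdet, Matrix.one_apply]
  simp

/-- the coordinates of a solution lying on a good hypersurface have algebraic ratios -/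
theorem algebraic_ratio {a : Polynomial ℂ} {A : Fin M → Fin M → Polynomial ℂ}
    (ha : a ≠ 0) (Φ : Fin M → Fin M → ℂ⟦X⟧)
    (hΦ : ∀ i j, (a : ℂ⟦X⟧) * d⁄dX ℂ (Φ i j) = ∑ l, (A i l : ℂ⟦X⟧) * Φ l j)
    (hdet : IsUnit (Matrix.of Φ).det) {x : mons N d → ℂ} (hx : Good e x) (hM : 0 < M)
    (he : ∀ k ≤ M, ∀ a : Fin k → ℕ, ∃ b : Fin k → ℕ, SameType d a b ∧ ∀ j, b j ≤ e)
    (hMe : M ≤ e) (R : Fin N → Fin M) (c : Fin M → ℂ)
    (hF : MvPolynomial.aeval (fun i => ev Φ (GG R c i)) (Fm x) = 0) (i i' : Fin N)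
    (hi' : ev Φ (GG R c i') ≠ 0) :
    ∃ Q : MvPolynomial (Fin 2) ℂ, Q ≠ 0 ∧
      MvPolynomial.aeval ![io (X : ℂ⟦X⟧), io (ev Φ (GG R c i)) / io (ev Φ (GG R c i'))] Q = 0 := by
  classical
  apply algebraic_of_killed Φ _ _ hi'
  have hioinj : Function.Injective io := IsFractionRing.injective ℂ⟦X⟧ KK
  have ha0 : io (a : ℂ⟦X⟧) ≠ 0 := by
    intro h0
    apply ha
    have h1 : (a : ℂ⟦X⟧) = 0 := hioinj (by rw [h0, map_zero])
    exact Polynomial.coe_eq_zero_iff.mp h1
  obtain ⟨D, hD, hDi, hDc⟩ := exists_der_frac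
  set δ : KK →+ KK := (AddMonoidHom.mulLeft (io (a : ℂ⟦X⟧))).comp D with hδ
  have hδa : ∀ x, δ x = io (a : ℂ⟦X⟧) * D x := fun _ => rfl
  have hspan := span_const δ (by
      intro x y
      rw [hδa, hδa, hδa, hD]
      ring) (by
      intro x hx
      rw [hδa] at hx
      obtain ⟨c, hc⟩ := hDc x ((mul_eq_zero.mp hx).resolve_left ha0)
      exact ⟨c, by rw [hc]; rfl⟩) (VV Φ) (by
      intro v hv
      exact VV_stable D hD hDi hΦ hv)
  -- the linear form
  set lin : (Fin M × Fin M → KK) → KK := fun U =>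
    ∑ s, io (ev Φ (MvPolynomial.pderiv (some s) (GG R c i)) * ev Φ (GG R c i')
      - ev Φ (GG R c i) * ev Φ (MvPolynomial.pderiv (some s) (GG R c i'))) * mulΦ Φ U s with hlin
  have hlin_smul : ∀ (k : KK) U, lin (k • U) = k * lin U := by
    intro k U
    simp only [hlin, mulΦ, Pi.smul_apply, smul_eq_mul, Finset.mul_sum]
    apply Finset.sum_congr rfl
    intro s _
    apply Finset.sum_congr rfl
    intro l _
    ring
  have hlin_add : ∀ U U', lin (U + U') = lin U + lin U' := by
    intro U U'
    simp only [hlin, mulΦ, Pi.add_apply, mul_add, Finset.sum_add_distrib]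
  have hlin0 : lin 0 = 0 := by
    have := hlin_smul 0 0
    rw [zero_smul, zero_mul] at this
    exact this
  have hkey : ∀ U ∈ VV Φ, lin U = 0 := by
    intro U hU
    have hU' := hspan hU
    refine Submodule.span_induction (p := fun U _ => lin U = 0) ?_ hlin0 ?_ ?_ hU'
    · rintro U ⟨hUV, m, rfl⟩
      have h1 := minor_const Φ hx hM he hMe R c hF (fun i j => m (i, j)) hUV i i'
      have h2 := congrArg io h1
      rw [map_mul, map_mul, io_ev_vf, io_ev_vf] at h2
      simp only [hlin]
      simp only [map_sub, map_mul, sub_mul, Finset.sum_sub_distrib]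
      have h3 : ∑ s, io (ev Φ (MvPolynomial.pderiv (some s) (GG R c i))) * io (ev Φ (GG R c i'))
          * mulΦ Φ (fun s => algebraMap ℂ KK (m s)) s
          = io (ev Φ (GG R c i')) * ∑ s, io (ev Φ (MvPolynomial.pderiv (some s) (GG R c i)))
            * mulΦ Φ (fun s => algebraMap ℂ KK (m s)) s := by
        rw [Finset.mul_sum]
        apply Finset.sum_congr rfl
        intro s _
        ring
      have h4 : ∑ s, io (ev Φ (GG R c i)) * io (ev Φ (MvPolynomial.pderiv (some s) (GG R c i')))
          * mulΦ Φ (fun s => algebraMap ℂ KK (m s)) s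
          = io (ev Φ (GG R c i)) * ∑ s, io (ev Φ (MvPolynomial.pderiv (some s) (GG R c i')))
            * mulΦ Φ (fun s => algebraMap ℂ KK (m s)) s := by
        rw [Finset.mul_sum]
        apply Finset.sum_congr rfl
        intro s _
        ring
      rw [h3, h4]
      exact sub_eq_zero.mpr h2.symm
    · intro U U' _ _ h h'
      show lin (U + U') = 0
      rw [hlin_add, h, h', add_zero]
    · intro k U _ h
      show lin (k • U) = 0
      rw [hlin_smul, h, mul_zero]
  intro W hW
  obtain ⟨U, rfl⟩ := exists_inv Φ hdet W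
  exact hkey U hW

end

end Pool.Agent.H13.Hol
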