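import Pool.Agent.H13.Borel.Borel
import Pool.Agent.H13.Kob.ExpFinal

/-!
# Quotients of entire functions that are algebraic are rational
-/

open Set Filter Topology

namespace Pool.Agent.H13.Hol

open Pool.Agent.H13.Borel

/-- an entire function of polynomial growth is a polynomial -/
lemma poly_of_growth {H : ℂ → ℂ} (hH : Differentiable ℂ H) {K : ℝ} {D : ℕ}
    (hb : ∀ z, ‖H z‖ ≤ K * (1 + ‖z‖) ^ D) : ∃ p : Polynomial ℂ, ∀ z, H z = p.eval z := by
  have h0 : ∀ n : ℕ, D < n → iteratedDeriv n H 0 = 0 := by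
    intro n hn
    have hK : 0 ≤ K := by
      have := (norm_nonneg _).trans (hb 0)
      simpa using this
    have h1 : ∀ R : ℝ, 1 ≤ R → ‖iteratedDeriv n H 0‖ ≤ n.factorial * (K * 2 ^ D) / R := by
      intro R hR
      have hR0 : 0 < R := by linarith
      have h2 := Complex.norm_iteratedDeriv_le_of_forall_mem_sphere_norm_le (c := 0) n hR0
        hH.diffContOnCl (C := K * (1 + R) ^ D) (by
          intro z hz
          rw [mem_sphere_zero_iff_norm] at hz
          have := hb z
          rwa [hz] at this)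
      refine h2.trans ?_
      rw [div_le_div_iff₀ (pow_pos hR0 n) hR0]
      have h3 : (1 + R) ^ D ≤ 2 ^ D * R ^ D := by
        rw [← mul_pow]
        gcongr
        linarith
      have h4 : R ^ D * R ≤ R ^ n := by
        rw [← pow_succ]
        exact pow_le_pow_right₀ hR hn
      have h5 : (0:ℝ) ≤ n.factorial := Nat.cast_nonneg _
      calc (n.factorial : ℝ) * (K * (1 + R) ^ D) * R
          ≤ n.factorial * (K * (2 ^ D * R ^ D)) * R := by gcongr
        _ = n.factorial * (K * 2 ^ D) * (R ^ D * R) := by ring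
        _ ≤ n.factorial * (K * 2 ^ D) * R ^ n := by gcongr
    have h6 : Tendsto (fun R : ℝ => (n.factorial : ℝ) * (K * 2 ^ D) / R) atTop (𝓝 0) :=
      tendsto_const_nhds.div_atTop tendsto_id
    have h7 : ‖iteratedDeriv n H 0‖ ≤ 0 := by
      apply ge_of_tendsto h6
      filter_upwards [eventually_ge_atTop 1] with R hR using h1 R hR
    exact norm_le_zero_iff.mp h7
  refine ⟨∑ n ∈ Finset.range (D + 1), Polynomial.C ((n.factorial : ℂ)⁻¹ * iteratedDeriv n H 0)
    * Polynomial.X ^ n, fun z => ?_⟩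
  rw [← Complex.taylorSeries_eq_of_entire' 0 z hH, tsum_eq_sum (s := Finset.range (D + 1))]
  · rw [Polynomial.eval_finsetSum]
    apply Finset.sum_congr rfl
    intro n _
    simp
  · intro n hn
    rw [Finset.mem_range, not_lt] at hn
    rw [h0 n (by omega)]
    simp

/-- isolated zeros -/
lemma eventually_ne {g : ℂ → ℂ} (hg : Differentiable ℂ g) (hne : ∃ z, g z ≠ 0) (z : ℂ) :
    ∀ᶠ w in 𝓝[≠] z, g w ≠ 0 := by
  rcases (hg.analyticAt z).eventually_eq_zero_or_eventually_ne_zero with h | h
  · exfalso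
    have hA : AnalyticOnNhd ℂ g univ := fun z _ => hg.analyticAt z
    have h3 : EqOn g 0 univ :=
      hA.eqOn_zero_of_preconnected_of_eventuallyEq_zero isPreconnected_univ (mem_univ z) h
    obtain ⟨w, hw⟩ := hne
    exact hw (h3 (mem_univ w))
  · exact h

/-- a closed condition that holds off the zeros of `g` holds everywhere -/
lemma of_ne {g : ℂ → ℂ} (hg : Differentiable ℂ g) (hne : ∃ z, g z ≠ 0) {P : ℂ → Prop}
    (hP : IsClosed {z | P z}) (h : ∀ z, g z ≠ 0 → P z) (z : ℂ) : P z := by
  have h1 : ∀ᶠ w in 𝓝[≠] z, w ∈ {z | P z} := by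
    filter_upwards [eventually_ne hg hne z] with w hw using h w hw
  exact hP.mem_of_frequently_of_tendsto (f := id) (b := 𝓝[≠] z) h1.frequently
    (tendsto_id.mono_left nhdsWithin_le_nhds)

/-- division of entire functions -/
lemma exists_quot {f g : ℂ → ℂ} (hf : Differentiable ℂ f) (hg : Differentiable ℂ g)
    (hne : ∃ z, g z ≠ 0) {B : ℂ → ℝ} (hB : Continuous B) (hb : ∀ z, ‖f z‖ ≤ B z * ‖g z‖) :
    ∃ h : ℂ → ℂ, Differentiable ℂ h ∧ ∀ z, f z = h z * g z := by
  classical
  set q : ℂ → ℂ := fun z => f z / g z with hq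
  set h : ℂ → ℂ := fun z => limUnder (𝓝[≠] z) q with hh
  have hqc : ∀ z, g z ≠ 0 → h z = q z := by
    intro z hz
    have h1 : ContinuousAt q z := (hf.continuous.continuousAt).div hg.continuous.continuousAt hz
    exact (h1.tendsto.mono_left nhdsWithin_le_nhds).limUnder_eq
  refine ⟨h, ?_, ?_⟩
  · intro z₀
    obtain ⟨u, hu, hu'⟩ : ∃ u ∈ 𝓝 z₀, ∀ w ∈ u, w ≠ z₀ → g w ≠ 0 := by
      have h1 := eventually_ne hg hne z₀
      rw [eventually_nhdsWithin_iff] at h1
      obtain ⟨u, hu, hu'⟩ := h1.exists_mem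
      exact ⟨u, hu, fun w hw hne => hu' w hw hne⟩
    obtain ⟨v, hv, hv'⟩ : ∃ v ∈ 𝓝 z₀, ∀ w ∈ v, B w ≤ B z₀ + 1 := by
      have h1 : ∀ᶠ w in 𝓝 z₀, B w < B z₀ + 1 :=
        hB.continuousAt.eventually_lt continuousAt_const (by linarith)
      obtain ⟨v, hv, hv'⟩ := h1.exists_mem
      exact ⟨v, hv, fun w hw => (hv' w hw).le⟩
    have hs : u ∩ v ∈ 𝓝 z₀ := inter_mem hu hv
    have h2 := Complex.differentiableOn_update_limUnder_of_bddAbove (f := q) hs (by
      intro w hw
      have hw' := hu' w hw.1.1 hw.2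
      exact ((hf w).div (hg w) hw').differentiableWithinAt) ⟨B z₀ + 1, by
        rintro _ ⟨w, hw, rfl⟩
        have hw' := hu' w hw.1.1 hw.2
        simp only [Function.comp_apply, hq]
        rw [norm_div, div_le_iff₀ (norm_pos_iff.mpr hw')]
        refine (hb w).trans ?_
        exact mul_le_mul_of_nonneg_right (hv' w hw.1.2) (norm_nonneg _)⟩
    have h3 : DifferentiableAt ℂ (Function.update q z₀ (limUnder (𝓝[≠] z₀) q)) z₀ :=
      h2.differentiableAt hs
    apply h3.congr_of_eventuallyEq
    filter_upwards [hs] with w hw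
    by_cases hwz : w = z₀
    · rw [hwz, Function.update_self]
    · rw [Function.update_of_ne hwz]
      exact hqc w (hu' w hw.1 hwz)
  · intro z
    by_cases hz : g z = 0
    · have h1 := hb z
      rw [hz, norm_zero, mul_zero] at h1
      rw [norm_le_zero_iff.mp h1, hz, mul_zero]
    · rw [hqc z hz]
      simp only [hq]
      rw [div_mul_cancel₀ _ hz]

/-- two-variable polynomials as polynomials in the second variable -/
noncomputable def toYY : MvPolynomial (Fin 2) ℂ →ₐ[ℂ] Polynomial (Polynomial ℂ) :=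
  MvPolynomial.aeval ![Polynomial.C Polynomial.X, Polynomial.X]

lemma toYY_inj {R : MvPolynomial (Fin 2) ℂ} (h : toYY R = 0) : R = 0 := by
  set ψ : Polynomial (Polynomial ℂ) →+* MvPolynomial (Fin 2) ℂ :=
    Polynomial.eval₂RingHom (Polynomial.aeval (MvPolynomial.X 0 : MvPolynomial (Fin 2) ℂ) :
      Polynomial ℂ →ₐ[ℂ] MvPolynomial (Fin 2) ℂ).toRingHom (MvPolynomial.X 1) with hψ
  have h1 : ψ.comp (toYY : MvPolynomial (Fin 2) ℂ →+* Polynomial (Polynomial ℂ))
      = RingHom.id _ := by
    apply MvPolynomial.ringHom_ext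
    · intro c
      have h2 : toYY (MvPolynomial.C c) = Polynomial.C (Polynomial.C c) := toYY.commutes c
      show ψ (toYY (MvPolynomial.C c)) = _
      rw [h2, hψ, Polynomial.coe_eval₂RingHom, Polynomial.eval₂_C]
      show Polynomial.aeval (MvPolynomial.X 0 : MvPolynomial (Fin 2) ℂ) (Polynomial.C c) = _
      rw [Polynomial.aeval_C]
      rfl
    · intro i
      show ψ (toYY (MvPolynomial.X i)) = _
      rw [toYY, MvPolynomial.aeval_X, hψ, Polynomial.coe_eval₂RingHom]
      fin_cases i
      · show Polynomial.eval₂ _ _ (Polynomial.C Polynomial.X) = _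
        rw [Polynomial.eval₂_C]
        show Polynomial.aeval (MvPolynomial.X 0 : MvPolynomial (Fin 2) ℂ) Polynomial.X = _
        rw [Polynomial.aeval_X]
        rfl
      · show Polynomial.eval₂ _ _ Polynomial.X = _
        rw [Polynomial.eval₂_X]
        rfl
  have h2 : ψ (toYY R) = R := congrArg (fun φ : MvPolynomial (Fin 2) ℂ →+* MvPolynomial (Fin 2) ℂ
    => φ R) h1
  rw [← h2, h, map_zero]

lemma toYY_eval (R : MvPolynomial (Fin 2) ℂ) (z w : ℂ) :
    MvPolynomial.aeval ![z, w] R = ((toYY R).map (Polynomial.evalRingHom z)).eval w := by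
  set ψ : Polynomial (Polynomial ℂ) →+* ℂ :=
    (Polynomial.evalRingHom w).comp (Polynomial.mapRingHom (Polynomial.evalRingHom z)) with hψ
  have h1 : (MvPolynomial.aeval ![z, w] : MvPolynomial (Fin 2) ℂ →ₐ[ℂ] ℂ).toRingHom
      = ψ.comp (toYY : MvPolynomial (Fin 2) ℂ →+* Polynomial (Polynomial ℂ)) := by
    apply MvPolynomial.ringHom_ext
    · intro c
      have h2 : toYY (MvPolynomial.C c) = Polynomial.C (Polynomial.C c) := toYY.commutes c
      show MvPolynomial.aeval ![z, w] (MvPolynomial.C c) = ψ (toYY (MvPolynomial.C c))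
      rw [h2, hψ]
      simp
    · intro i
      show MvPolynomial.aeval ![z, w] (MvPolynomial.X i) = ψ (toYY (MvPolynomial.X i))
      rw [toYY, MvPolynomial.aeval_X, MvPolynomial.aeval_X, hψ]
      fin_cases i <;> simp
  exact congrArg (fun φ : MvPolynomial (Fin 2) ℂ →+* ℂ => φ R) h1

/-- the bound for roots -/
lemma root_bound {L : ℕ} (hL : 0 < L) (a : ℕ → ℂ) (w : ℂ)
    (h : ∑ l ∈ Finset.range (L + 1), a l * w ^ l = 0) :
    ‖a L * w‖ ≤ 1 + ∑ l ∈ Finset.range L, ‖a l * a L ^ (L - 1 - l)‖ := by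
  by_cases h1 : ‖a L * w‖ ≤ 1
  · have : 0 ≤ ∑ l ∈ Finset.range L, ‖a l * a L ^ (L - 1 - l)‖ :=
      Finset.sum_nonneg fun _ _ => norm_nonneg _
    linarith
  · push Not at h1
    set v := a L * w with hv
    have h2 : v ^ L = -∑ l ∈ Finset.range L, (a l * a L ^ (L - 1 - l)) * v ^ l := by
      rw [Finset.sum_range_succ] at h
      have h3 : a L ^ (L - 1) * (∑ l ∈ Finset.range L, a l * w ^ l) = ∑ l ∈ Finset.range L,
          (a l * a L ^ (L - 1 - l)) * v ^ l := by
        rw [Finset.mul_sum]
        apply Finset.sum_congr rfl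
        intro l hl
        rw [Finset.mem_range] at hl
        have h4 : a L ^ (L - 1) = a L ^ (L - 1 - l) * a L ^ l := by
          rw [← pow_add]
          congr 1
          omega
        rw [h4, hv, mul_pow]
        ring
      have h5 : v ^ L = a L ^ (L - 1) * (a L * w ^ L) := by
        rw [hv, mul_pow]
        have : a L ^ L = a L ^ (L - 1) * a L := by
          rw [← pow_succ]
          congr 1
          omega
        rw [this]
        ring
      rw [← h3, h5]
      linear_combination a L ^ (L - 1) * h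
    have h3 : ‖v‖ ^ L ≤ (∑ l ∈ Finset.range L, ‖a l * a L ^ (L - 1 - l)‖) * ‖v‖ ^ (L - 1) := by
      rw [← norm_pow, h2, norm_neg, Finset.sum_mul]
      refine (norm_sum_le _ _).trans ?_
      apply Finset.sum_le_sum
      intro l hl
      rw [Finset.mem_range] at hl
      rw [norm_mul, norm_pow]
      apply mul_le_mul_of_nonneg_left _ (norm_nonneg _)
      exact pow_le_pow_right₀ h1.le (by omega)
    have h4 : ‖v‖ ^ L = ‖v‖ * ‖v‖ ^ (L - 1) := by
      rw [← pow_succ']
      congr 1
      omega
    rw [h4] at h3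
    have h5 := le_of_mul_le_mul_right h3 (pow_pos (by linarith) _)
    linarith

/-- algebraic quotients of entire functions are rational -/
theorem rational_of_algebraic {f g : ℂ → ℂ} (hf : Differentiable ℂ f) (hg : Differentiable ℂ g)
    (hne : ∃ z, g z ≠ 0) {R : MvPolynomial (Fin 2) ℂ} (hR : R ≠ 0)
    (h : ∀ z, g z ≠ 0 → MvPolynomial.aeval ![z, f z / g z] R = 0) :
    ∃ p q : Polynomial ℂ, q ≠ 0 ∧ ∀ z, q.eval z * f z = p.eval z * g z := by
  classical
  set S := toYY R with hS
  have hS0 : S ≠ 0 := fun h0 => hR (toYY_inj h0)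
  set L := S.natDegree with hL
  set q := S.coeff L with hq
  have hq0 : q ≠ 0 := by
    rw [hq, hL]
    exact Polynomial.leadingCoeff_ne_zero.mpr hS0
  have hrel : ∀ z, g z ≠ 0 → ∑ l ∈ Finset.range (L + 1), (S.coeff l).eval z * (f z / g z) ^ l = 0 := by
    intro z hz
    have h1 := h z hz
    rw [toYY_eval, ← hS, Polynomial.eval_eq_sum_range' (n := L + 1)] at h1
    · rw [← h1]
      apply Finset.sum_congr rfl
      intro l _
      rw [Polynomial.coeff_map]
      rfl
    · exact lt_of_le_of_lt Polynomial.natDegree_map_le (Nat.lt_succ_self _)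
  by_cases hL0 : L = 0
  · exfalso
    apply hq0
    apply Kob.dense_eval hg hne
    intro z hz
    have h1 := hrel z hz
    rw [hL0] at h1
    simp only [zero_add, Finset.range_one, Finset.sum_singleton, pow_zero, mul_one] at h1
    rw [hq, hL0]
    exact h1
  · have hLpos : 0 < L := Nat.pos_of_ne_zero hL0
    set B : ℂ → ℝ := fun z => 1 + ∑ l ∈ Finset.range L, ‖(S.coeff l * q ^ (L - 1 - l)).eval z‖
      with hB
    have hBc : Continuous B := by
      simp only [hB]
      apply Continuous.add continuous_const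
      apply continuous_finsetSum
      intro l _
      exact (Polynomial.continuous _).norm
    have hb : ∀ z, ‖q.eval z * f z‖ ≤ B z * ‖g z‖ := by
      apply of_ne hg hne (P := fun z => ‖q.eval z * f z‖ ≤ B z * ‖g z‖)
      · apply isClosed_le
        · exact ((Polynomial.continuous _).mul hf.continuous).norm
        · exact hBc.mul hg.continuous.norm
      · intro z hz
        have h1 := root_bound hLpos (fun l => (S.coeff l).eval z) (f z / g z) (hrel z hz)
        have h2 : B z = 1 + ∑ l ∈ Finset.range L, ‖(S.coeff l).eval z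
            * (S.coeff L).eval z ^ (L - 1 - l)‖ := by
          simp only [hB]
          congr 1
          apply Finset.sum_congr rfl
          intro l _
          rw [Polynomial.eval_mul, Polynomial.eval_pow]
        rw [h2, ← div_le_iff₀ (norm_pos_iff.mpr hz), ← norm_div, mul_div_assoc]
        exact h1
    obtain ⟨H, hH, hHe⟩ := exists_quot ((Polynomial.differentiable q).mul hf) hg hne hBc hb
    have hHB : ∀ z, ‖H z‖ ≤ B z := by
      apply of_ne hg hne (P := fun z => ‖H z‖ ≤ B z)
      · exact isClosed_le hH.continuous.norm hBc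
      · intro z hz
        have h1 := hb z
        have h2 : q.eval z * f z = H z * g z := hHe z
        rw [h2, norm_mul] at h1
        exact le_of_mul_le_mul_right h1 (norm_pos_iff.mpr hz)
    obtain ⟨K, D, hK, hKD⟩ := polyGrowth_uniform (Finset.range L)
      (c := fun l z => (S.coeff l * q ^ (L - 1 - l)).eval z)
      (fun l _ => polyGrowth_polynomial _)
    obtain ⟨p, hp⟩ := poly_of_growth hH (K := 1 + L * K) (D := D) (by
      intro z
      refine (hHB z).trans ?_
      simp only [hB]
      have h1 : ∑ l ∈ Finset.range L, ‖(S.coeff l * q ^ (L - 1 - l)).eval z‖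
          ≤ ∑ _l ∈ Finset.range L, K * (1 + ‖z‖) ^ D :=
        Finset.sum_le_sum fun l hl => hKD l hl z
      rw [Finset.sum_const, Finset.card_range, nsmul_eq_mul] at h1
      have h2 : (1:ℝ) ≤ (1 + ‖z‖) ^ D := one_le_pow₀ (by linarith [norm_nonneg z])
      calc 1 + ∑ l ∈ Finset.range L, ‖(S.coeff l * q ^ (L - 1 - l)).eval z‖
          ≤ (1 + ‖z‖) ^ D + L * (K * (1 + ‖z‖) ^ D) := add_le_add h2 h1
        _ = _ := by ring)
    refine ⟨p, q, hq0, fun z => ?_⟩
    rw [← hp]
    exact hHe z

end Pool.Agent.H13.Hol
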