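import Pool.Agent.H13.Hol.Const

/-!
# Derivations commuting with a linear differential system
-/

namespace Pool.Agent.H13.Hol

open PowerSeries Pool.Agent.H13.CEV

/-- chain rule -/
lemma chain {S : Type*} [CommRing S] [Algebra ℂ S] {τ : Type*} [Fintype τ] (D : S →+ S)
    (hD : ∀ a b, D (a * b) = a * D b + b * D a) (hc : ∀ c : ℂ, D (algebraMap ℂ S c) = 0)
    (f : τ → S) (P : MvPolynomial τ ℂ) :
    D (MvPolynomial.aeval f P)
      = ∑ t, MvPolynomial.aeval f (MvPolynomial.pderiv t P) * D (f t) := by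
  classical
  induction P using MvPolynomial.induction_on with
  | C a => simp [hc]
  | add p q hp hq =>
    simp only [map_add, hp, hq, add_mul, Finset.sum_add_distrib]
  | mul_X p i hp =>
    simp only [map_mul, MvPolynomial.aeval_X, hD, hp, MvPolynomial.pderiv_mul, map_add, add_mul,
      Finset.sum_add_distrib, Finset.mul_sum]
    rw [add_comm]
    congr 1
    · apply Finset.sum_congr rfl
      intro t _
      ring
    · rw [Finset.sum_eq_single i]
      · simp
      · intro t _ ht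
        rw [MvPolynomial.pderiv_X_of_ne (Ne.symm ht)]
        simp
      · simp

lemma pderiv_comm {τ : Type*} (s t : τ) (P : MvPolynomial τ ℂ) :
    MvPolynomial.pderiv s (MvPolynomial.pderiv t P)
      = MvPolynomial.pderiv t (MvPolynomial.pderiv s P) := by
  classical
  have h : ⁅(MvPolynomial.pderiv (R := ℂ) s), (MvPolynomial.pderiv (R := ℂ) t)⁆
      = (0 : Derivation ℂ (MvPolynomial τ ℂ) (MvPolynomial τ ℂ)) := by
    apply MvPolynomial.derivation_ext
    intro i
    rw [Derivation.commutator_apply, MvPolynomial.pderiv_X, MvPolynomial.pderiv_X]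
    simp only [Derivation.coe_zero, Pi.zero_apply]
    have aux : ∀ u v : τ, MvPolynomial.pderiv u (Pi.single (M := fun _ => MvPolynomial τ ℂ) v 1 i)
        = 0 := by
      intro u v
      by_cases hv : i = v
      · subst hv; rw [Pi.single_eq_same]; simp
      · rw [Pi.single_eq_of_ne hv]; simp
    rw [aux, aux, sub_zero]
  have h2 := congrArg (fun D : Derivation ℂ (MvPolynomial τ ℂ) (MvPolynomial τ ℂ) => D P) h
  rw [Derivation.commutator_apply] at h2
  exact sub_eq_zero.mp h2

/-- the vector field with coefficients `c` -/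
noncomputable def vf {τ : Type*} [Fintype τ] (c : τ → MvPolynomial τ ℂ) (P : MvPolynomial τ ℂ) :
    MvPolynomial τ ℂ :=
  ∑ t, c t * MvPolynomial.pderiv t P

lemma pderiv_vf {τ : Type*} [Fintype τ] (c : τ → MvPolynomial τ ℂ) (P : MvPolynomial τ ℂ)
    (s : τ) : MvPolynomial.pderiv s (vf c P)
      = ∑ t, MvPolynomial.pderiv s (c t) * MvPolynomial.pderiv t P
        + vf c (MvPolynomial.pderiv s P) := by
  rw [vf, vf, map_sum, ← Finset.sum_add_distrib]
  apply Finset.sum_congr rfl
  intro t _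
  rw [MvPolynomial.pderiv_mul, pderiv_comm]

section

variable {M : ℕ}

/-- polynomials in `z` and in the entries of a matrix -/
abbrev QM (M : ℕ) : Type := MvPolynomial (Option (Fin M × Fin M)) ℂ

/-- the point of the matrix `Φ` -/
noncomputable def pt {S : Type*} (z : S) (Φ : Fin M → Fin M → S) : Option (Fin M × Fin M) → S
  | none => z
  | some s => Φ s.1 s.2

/-- evaluation at `Φ` -/
noncomputable def ev (Φ : Fin M → Fin M → ℂ⟦X⟧) : QM M →ₐ[ℂ] ℂ⟦X⟧ :=
  MvPolynomial.aeval (pt X Φ)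

/-- polynomials in `z` -/
noncomputable def zq (p : Polynomial ℂ) : QM M := Polynomial.aeval (MvPolynomial.X none) p

lemma aeval_X_eq (p : Polynomial ℂ) : Polynomial.aeval (X : ℂ⟦X⟧) p = (p : ℂ⟦X⟧) := by
  induction p using Polynomial.induction_on' with
  | add p q hp hq => rw [map_add, hp, hq, Polynomial.coe_add]
  | monomial n a =>
    rw [Polynomial.aeval_monomial, ← Polynomial.C_mul_X_pow_eq_monomial, Polynomial.coe_mul,
      Polynomial.coe_pow, Polynomial.coe_X, Polynomial.coe_C]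
    rfl

lemma ev_zq (Φ : Fin M → Fin M → ℂ⟦X⟧) (p : Polynomial ℂ) : ev Φ (zq p) = (p : ℂ⟦X⟧) := by
  rw [zq, ← Polynomial.aeval_algHom_apply, ev, MvPolynomial.aeval_X]
  exact aeval_X_eq p

/-- the coefficients of the vector field of the system `a y' = A y` -/
noncomputable def cD (a : Polynomial ℂ) (A : Fin M → Fin M → Polynomial ℂ) :
    Option (Fin M × Fin M) → QM M
  | none => zq a
  | some s => ∑ l, zq (A s.1 l) * MvPolynomial.X (some (l, s.2))

variable {Φ : Fin M → Fin M → ℂ⟦X⟧} {a : Polynomial ℂ} {A : Fin M → Fin M → Polynomial ℂ}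

/-- the vector field of the system is the derivation along `Φ` -/
lemma ev_vf (hΦ : ∀ i j, (a : ℂ⟦X⟧) * d⁄dX ℂ (Φ i j) = ∑ l, (A i l : ℂ⟦X⟧) * Φ l j) (P : QM M) :
    ev Φ (vf (cD a A) P) = (a : ℂ⟦X⟧) * d⁄dX ℂ (ev Φ P) := by
  have h1 := chain (PowerSeries.derivative ℂ).toLinearMap.toAddMonoidHom (by
      intro a b
      show d⁄dX ℂ (a * b) = a * d⁄dX ℂ b + b * d⁄dX ℂ a
      rw [Derivation.leibniz, smul_eq_mul, smul_eq_mul]) (fun c => by
      show d⁄dX ℂ (algebraMap ℂ ℂ⟦X⟧ c) = 0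
      exact Derivation.map_algebraMap _ _) (pt X Φ) P
  have h2 : d⁄dX ℂ (ev Φ P) = ∑ t, ev Φ (MvPolynomial.pderiv t P) * d⁄dX ℂ (pt X Φ t) := h1
  rw [h2, vf, map_sum, Finset.mul_sum]
  apply Finset.sum_congr rfl
  intro t _
  rw [map_mul]
  have h3 : ev Φ (cD a A t) = (a : ℂ⟦X⟧) * d⁄dX ℂ (pt X Φ t) := by
    rcases t with _ | s
    · simp only [cD, pt]
      rw [ev_zq, derivative_X, mul_one]
    · simp only [cD, pt]
      rw [hΦ, map_sum]
      apply Finset.sum_congr rfl
      intro l _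
      rw [map_mul, ev_zq]
      congr 1
      rw [ev, MvPolynomial.aeval_X]
      rfl
  rw [h3]
  ring

/-- the fraction field -/
abbrev KK : Type := FractionRing ℂ⟦X⟧

/-- the embedding -/
noncomputable abbrev io : ℂ⟦X⟧ →+* KK := algebraMap ℂ⟦X⟧ KK

/-- values of derivations at the point `Φ` -/
def TT (Φ : Fin M → Fin M → ℂ⟦X⟧) : Submodule KK (Fin M × Fin M → KK) where
  carrier := {W | ∀ P : QM M, ev Φ P = 0 →
    ∑ s, io (ev Φ (MvPolynomial.pderiv (some s) P)) * W s = 0}
  zero_mem' := by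
    intro P _
    simp
  add_mem' := by
    intro W W' hW hW' P hP
    simp only [Pi.add_apply, mul_add, Finset.sum_add_distrib]
    rw [hW P hP, hW' P hP, add_zero]
  smul_mem' := by
    intro c W hW P hP
    simp only [Pi.smul_apply, smul_eq_mul]
    have := hW P hP
    rw [Finset.sum_congr rfl (fun s _ => mul_left_comm (io (ev Φ (MvPolynomial.pderiv (some s) P)))
      c (W s)), ← Finset.mul_sum, this, mul_zero]

/-- multiplication by `Φ` on the left -/
noncomputable def mulΦ (Φ : Fin M → Fin M → ℂ⟦X⟧) (U : Fin M × Fin M → KK) :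
    Fin M × Fin M → KK :=
  fun s => ∑ l, io (Φ s.1 l) * U (l, s.2)

/-- matrices `U` such that `Φ U` is a value of derivations -/
def VV (Φ : Fin M → Fin M → ℂ⟦X⟧) : Submodule KK (Fin M × Fin M → KK) where
  carrier := {U | mulΦ Φ U ∈ TT Φ}
  zero_mem' := by
    have : mulΦ Φ 0 = 0 := by funext s; simp [mulΦ]
    show mulΦ Φ 0 ∈ TT Φ
    rw [this]
    exact Submodule.zero_mem _
  add_mem' := by
    intro U U' hU hU'
    have : mulΦ Φ (U + U') = mulΦ Φ U + mulΦ Φ U' := by
      funext s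
      simp [mulΦ, mul_add, Finset.sum_add_distrib]
    show mulΦ Φ (U + U') ∈ TT Φ
    rw [this]
    exact Submodule.add_mem _ hU hU'
  smul_mem' := by
    intro c U hU
    have : mulΦ Φ (c • U) = c • mulΦ Φ U := by
      funext s
      simp only [mulΦ, Pi.smul_apply, smul_eq_mul, Finset.mul_sum]
      apply Finset.sum_congr rfl
      intro l _
      ring
    show mulΦ Φ (c • U) ∈ TT Φ
    rw [this]
    exact Submodule.smul_mem _ _ hU

lemma pderiv_zq (s : Fin M × Fin M) (p : Polynomial ℂ) :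
    MvPolynomial.pderiv (some s) (zq p : QM M) = 0 := by
  rw [zq, Polynomial.aeval_eq_sum_range, map_sum]
  apply Finset.sum_eq_zero
  intro n _
  rw [Derivation.map_smul, MvPolynomial.pderiv_pow, MvPolynomial.pderiv_X_of_ne (by simp)]
  simp

/-- stability of the tangent space -/
lemma TT_stable (D : KK →+ KK) (hD : ∀ a b, D (a * b) = a * D b + b * D a)
    (hDi : ∀ f : ℂ⟦X⟧, D (io f) = io (d⁄dX ℂ f))
    (hΦ : ∀ i j, (a : ℂ⟦X⟧) * d⁄dX ℂ (Φ i j) = ∑ l, (A i l : ℂ⟦X⟧) * Φ l j)
    {W : Fin M × Fin M → KK} (hW : W ∈ TT Φ) :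
    (fun s => io (a : ℂ⟦X⟧) * D (W s) - ∑ l, io (A s.1 l : ℂ⟦X⟧) * W (l, s.2)) ∈ TT Φ := by
  classical
  intro P hP
  have h1 : ev Φ (vf (cD a A) P) = 0 := by
    rw [ev_vf hΦ, hP]; simp
  have h2 := hW _ h1
  have h3 : ∀ s, io (ev Φ (MvPolynomial.pderiv (some s) (vf (cD a A) P)))
      = ∑ t : Fin M, io (A t s.1 : ℂ⟦X⟧) * io (ev Φ (MvPolynomial.pderiv (some (t, s.2)) P))
        + io (a : ℂ⟦X⟧) * D (io (ev Φ (MvPolynomial.pderiv (some s) P))) := by
    intro s
    rw [pderiv_vf, map_add, ev_vf hΦ, map_add, map_mul, hDi, map_sum, Fintype.sum_option]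
    congr 1
    have h4 : MvPolynomial.pderiv (some s) (cD a A none) = 0 := pderiv_zq s a
    rw [h4, zero_mul, map_zero, zero_add, map_sum, Fintype.sum_prod_type]
    apply Finset.sum_congr rfl
    intro t _
    rw [Finset.sum_eq_single s.2]
    · have h5 : MvPolynomial.pderiv (some s) (cD a A (some (t, s.2))) = zq (A t s.1) := by
        simp only [cD, map_sum]
        rw [Finset.sum_eq_single s.1]
        · rw [MvPolynomial.pderiv_mul, pderiv_zq, zero_mul, zero_add]
          have : (some (s.1, s.2) : Option (Fin M × Fin M)) = some s := rfl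
          rw [this, MvPolynomial.pderiv_X_self, mul_one]
        · intro l _ hl
          rw [MvPolynomial.pderiv_mul, pderiv_zq, zero_mul, zero_add,
            MvPolynomial.pderiv_X_of_ne, mul_zero]
          intro h
          apply hl
          have := Option.some_injective _ h
          rw [← this]
        · simp
      rw [h5, map_mul, map_mul, ev_zq]
    · intro b _ hb
      have h5 : MvPolynomial.pderiv (some s) (cD a A (some (t, b))) = 0 := by
        simp only [cD, map_sum]
        apply Finset.sum_eq_zero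
        intro l _
        rw [MvPolynomial.pderiv_mul, pderiv_zq, zero_mul, zero_add,
            MvPolynomial.pderiv_X_of_ne, mul_zero]
        intro h
        apply hb
        have := Option.some_injective _ h
        rw [← this]
      rw [h5, zero_mul, map_zero, map_zero]
    · simp
  have h4 : ∑ s, D (io (ev Φ (MvPolynomial.pderiv (some s) P)) * W s) = 0 := by
    rw [← map_sum, hW P hP, map_zero]
  simp only [h3, hD, add_mul, Finset.sum_add_distrib] at h2 h4
  -- reorganise
  have h5 : ∑ s : Fin M × Fin M, (∑ t : Fin M, io (A t s.1 : ℂ⟦X⟧)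
        * io (ev Φ (MvPolynomial.pderiv (some (t, s.2)) P))) * W s
      = ∑ s : Fin M × Fin M, io (ev Φ (MvPolynomial.pderiv (some s) P))
        * ∑ l, io (A s.1 l : ℂ⟦X⟧) * W (l, s.2) := by
    simp only [Fintype.sum_prod_type, Finset.sum_mul, Finset.mul_sum]
    rw [Finset.sum_congr rfl (fun x _ => Finset.sum_comm), Finset.sum_comm]
    apply Finset.sum_congr rfl
    intro t _
    rw [Finset.sum_comm]
    apply Finset.sum_congr rfl
    intro b _
    apply Finset.sum_congr rfl
    intro l _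
    ring
  simp only [mul_sub, Finset.sum_sub_distrib]
  rw [← h5]
  have h6 : ∑ s, io (ev Φ (MvPolynomial.pderiv (some s) P)) * (io (a : ℂ⟦X⟧) * D (W s))
      = io (a : ℂ⟦X⟧) * ∑ s, io (ev Φ (MvPolynomial.pderiv (some s) P)) * D (W s) := by
    rw [Finset.mul_sum]
    apply Finset.sum_congr rfl
    intro s _
    ring
  have h7 : ∑ s, io (a : ℂ⟦X⟧) * D (io (ev Φ (MvPolynomial.pderiv (some s) P))) * W s
      = io (a : ℂ⟦X⟧) * ∑ s, W s * D (io (ev Φ (MvPolynomial.pderiv (some s) P))) := by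
    rw [Finset.mul_sum]
    apply Finset.sum_congr rfl
    intro s _
    ring
  rw [h7] at h2
  rw [h6]
  linear_combination io (a : ℂ⟦X⟧) * h4 - h2

/-- stability of `VV` -/
lemma VV_stable (D : KK →+ KK) (hD : ∀ a b, D (a * b) = a * D b + b * D a)
    (hDi : ∀ f : ℂ⟦X⟧, D (io f) = io (d⁄dX ℂ f))
    (hΦ : ∀ i j, (a : ℂ⟦X⟧) * d⁄dX ℂ (Φ i j) = ∑ l, (A i l : ℂ⟦X⟧) * Φ l j)
    {U : Fin M × Fin M → KK} (hU : U ∈ VV Φ) :
    (fun s => io (a : ℂ⟦X⟧) * D (U s)) ∈ VV Φ := by
  have h1 := TT_stable D hD hDi hΦ hU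
  have h2 : (fun s => io (a : ℂ⟦X⟧) * D (mulΦ Φ U s)
      - ∑ l, io (A s.1 l : ℂ⟦X⟧) * mulΦ Φ U (l, s.2))
      = mulΦ Φ (fun s => io (a : ℂ⟦X⟧) * D (U s)) := by
    funext s
    simp only [mulΦ, map_sum, hD, hDi, Finset.mul_sum, mul_add, Finset.sum_add_distrib]
    have h3 : ∑ l, io (a : ℂ⟦X⟧) * (U (l, s.2) * io (d⁄dX ℂ (Φ s.1 l)))
        = ∑ l, ∑ m, io (A s.1 l : ℂ⟦X⟧) * (io (Φ l m) * U (m, s.2)) := by
      rw [Finset.sum_comm]
      apply Finset.sum_congr rfl
      intro m _
      have h4 := congrArg io (hΦ s.1 m)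
      rw [map_mul, map_sum] at h4
      calc io (a : ℂ⟦X⟧) * (U (m, s.2) * io (d⁄dX ℂ (Φ s.1 m)))
          = (io (a : ℂ⟦X⟧) * io (d⁄dX ℂ (Φ s.1 m))) * U (m, s.2) := by ring
        _ = _ := by
          rw [h4, Finset.sum_mul]
          apply Finset.sum_congr rfl
          intro l _
          rw [map_mul]; ring
    rw [h3, add_sub_cancel_right]
    apply Finset.sum_congr rfl
    intro l _
    ring
  show mulΦ Φ (fun s => io (a : ℂ⟦X⟧) * D (U s)) ∈ TT Φ
  rw [← h2]
  exact h1

end

end Pool.Agent.H13.Hol
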