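import Pool.Agent.H13.Hol.Killed
import Pool.Agent.H13.Hol.Rational

/-!
# Taylor series of entire functions
-/

open Filter Topology

namespace Pool.Agent.H13.Hol

open PowerSeries Pool.Agent.H13.CEV Pool.Agent.H13.Kob

/-- the algebra of entire functions -/
def EE : Subalgebra ℂ (ℂ → ℂ) where
  carrier := {f | Differentiable ℂ f}
  mul_mem' := fun hf hg => hf.mul hg
  add_mem' := fun hf hg => hf.add hg
  algebraMap_mem' := fun c => differentiable_const c

/-- the Taylor series at `0` -/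
noncomputable def tay (f : ℂ → ℂ) : ℂ⟦X⟧ :=
  PowerSeries.mk fun n => (n.factorial : ℂ)⁻¹ * iteratedDeriv n f 0

lemma tay_add {f g : ℂ → ℂ} (hf : Differentiable ℂ f) (hg : Differentiable ℂ g) :
    tay (f + g) = tay f + tay g := by
  ext n
  simp only [tay, coeff_mk, map_add]
  rw [iteratedDeriv_add hf.contDiff.contDiffAt hg.contDiff.contDiffAt]
  ring

lemma tay_mul {f g : ℂ → ℂ} (hf : Differentiable ℂ f) (hg : Differentiable ℂ g) :
    tay (f * g) = tay f * tay g := by
  ext n
  simp only [tay, coeff_mk, coeff_mul]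
  rw [iteratedDeriv_mul hf.contDiff.contDiffAt hg.contDiff.contDiffAt,
    Finset.Nat.sum_antidiagonal_eq_sum_range_succ_mk, Finset.mul_sum]
  apply Finset.sum_congr rfl
  intro i hi
  have hi' : i ≤ n := by
    have := Finset.mem_range.mp hi; omega
  dsimp only
  have h1 : (n.choose i : ℂ) * (i.factorial : ℂ) * ((n - i).factorial : ℂ) = (n.factorial : ℂ) := by
    exact_mod_cast Nat.choose_mul_factorial_mul_factorial hi'
  have h2 : (n.factorial : ℂ) ≠ 0 := by exact_mod_cast n.factorial_ne_zero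
  have h3 : (i.factorial : ℂ) ≠ 0 := by exact_mod_cast i.factorial_ne_zero
  have h4 : ((n - i).factorial : ℂ) ≠ 0 := by exact_mod_cast (n - i).factorial_ne_zero
  have h5 : (n.factorial : ℂ)⁻¹ * (n.choose i : ℂ)
      = (i.factorial : ℂ)⁻¹ * ((n - i).factorial : ℂ)⁻¹ := by
    rw [← h1]
    have h6 : (n.choose i : ℂ) ≠ 0 := by
      exact_mod_cast (Nat.choose_pos hi').ne'
    field_simp
  calc (n.factorial : ℂ)⁻¹ * ((n.choose i : ℂ) * iteratedDeriv i f 0 * iteratedDeriv (n - i) g 0)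
      = ((n.factorial : ℂ)⁻¹ * (n.choose i : ℂ)) * iteratedDeriv i f 0
        * iteratedDeriv (n - i) g 0 := by ring
    _ = _ := by rw [h5]; ring

lemma tay_const (c : ℂ) : tay (fun _ => c) = C c := by
  ext n
  rw [tay, coeff_mk, coeff_C, iteratedDeriv_const]
  rcases n with _ | n
  · simp
  · simp

lemma tay_zero {f : ℂ → ℂ} (hf : Differentiable ℂ f) (h : tay f = 0) (z : ℂ) : f z = 0 := by
  rw [← Complex.taylorSeries_eq_of_entire' 0 z hf]
  have h1 : ∀ n : ℕ, (n.factorial : ℂ)⁻¹ * iteratedDeriv n f 0 = 0 := by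
    intro n
    have := congrArg (coeff n) h
    rw [tay, coeff_mk, map_zero] at this
    exact this
  simp [h1]

lemma tay_deriv {f : ℂ → ℂ} : tay (deriv f) = d⁄dX ℂ (tay f) := by
  ext n
  rw [coeff_derivative, tay, tay, coeff_mk, coeff_mk, ← iteratedDeriv_succ',
    Nat.factorial_succ]
  have h2 : (n.factorial : ℂ) ≠ 0 := by exact_mod_cast n.factorial_ne_zero
  have h3 : ((n : ℂ) + 1) ≠ 0 := by exact_mod_cast n.succ_ne_zero
  push_cast
  field_simp

/-- the Taylor series as an algebra homomorphism -/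
noncomputable def tau : EE →ₐ[ℂ] ℂ⟦X⟧ where
  toFun := fun f => tay f.1
  map_one' := by
    show tay (fun _ => (1:ℂ)) = 1
    rw [tay_const, map_one]
  map_mul' := fun f g => tay_mul f.2 g.2
  map_zero' := by
    show tay (fun _ => (0:ℂ)) = 0
    rw [tay_const, map_zero]
  map_add' := fun f g => tay_add f.2 g.2
  commutes' := fun c => tay_const c

lemma tau_apply (f : EE) : tau f = tay f.1 := rfl

lemma tau_inj : Function.Injective tau := by
  rw [injective_iff_map_eq_zero]
  intro f hf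
  apply Subtype.ext
  funext z
  exact tay_zero f.2 hf z

lemma tay_id : tay (fun z => z) = X := by
  ext n
  rw [tay, coeff_mk, coeff_X]
  rcases n with _ | _ | n
  · simp
  · simp
  · have h1 : iteratedDeriv (n + 2) (fun z : ℂ => z) = fun _ => 0 := by
      rw [iteratedDeriv_succ', iteratedDeriv_succ']
      have h2 : deriv (fun z : ℂ => z) = fun _ => 1 := by
        funext z
        exact deriv_id z
      rw [h2]
      have h3 : deriv (fun _ : ℂ => (1:ℂ)) = fun _ => 0 := by
        funext z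
        exact deriv_const z 1
      rw [h3]
      funext z
      rw [iteratedDeriv_const]
      split_ifs <;> rfl
    rw [h1]
    simp

/-- the coordinate function -/
noncomputable def zE : EE := ⟨fun z => z, differentiable_id⟩

lemma tau_zE : tau zE = X := tay_id

/-- polynomials as entire functions -/
noncomputable def pE (p : Polynomial ℂ) : EE := ⟨fun z => p.eval z, p.differentiable⟩

lemma pE_eq (p : Polynomial ℂ) : pE p = Polynomial.aeval zE p := by
  induction p using Polynomial.induction_on' with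
  | add p q hp hq =>
    rw [map_add, ← hp, ← hq]
    apply Subtype.ext
    funext z
    show (p + q).eval z = p.eval z + q.eval z
    rw [Polynomial.eval_add]
  | monomial n a =>
    rw [Polynomial.aeval_monomial]
    apply Subtype.ext
    funext z
    show (Polynomial.monomial n a).eval z = a * z ^ n
    rw [Polynomial.eval_monomial]

lemma tau_pE (p : Polynomial ℂ) : tau (pE p) = (p : ℂ⟦X⟧) := by
  rw [pE_eq, ← Polynomial.aeval_algHom_apply, tau_zE]
  exact aeval_X_eq p

/-- evaluation at a point -/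
def evE (z : ℂ) : EE →ₐ[ℂ] ℂ where
  toFun := fun f => f.1 z
  map_one' := rfl
  map_mul' := fun _ _ => rfl
  map_zero' := rfl
  map_add' := fun _ _ => rfl
  commutes' := fun _ => rfl

/-- homogenisation -/
noncomputable def hom3 (T : ℕ) (Q : MvPolynomial (Fin 2) ℂ) : MvPolynomial (Fin 3) ℂ :=
  ∑ α ∈ Q.support, MvPolynomial.C (Q.coeff α) * MvPolynomial.X 0 ^ (α 0)
    * MvPolynomial.X 1 ^ (α 1) * MvPolynomial.X 2 ^ (T - α 1)

lemma aeval_hom3 {L : Type*} [Field L] [Algebra ℂ L] (Q : MvPolynomial (Fin 2) ℂ) {T : ℕ}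
    (hT : ∀ α ∈ Q.support, α 1 ≤ T) (x u w : L) (hw : w ≠ 0) :
    MvPolynomial.aeval ![x, u, w] (hom3 T Q) = w ^ T * MvPolynomial.aeval ![x, u / w] Q := by
  conv_rhs => rw [MvPolynomial.aeval_def, MvPolynomial.eval₂_eq']
  rw [hom3, map_sum, Finset.mul_sum]
  apply Finset.sum_congr rfl
  intro α hα
  have h1 := hT α hα
  simp only [map_mul, map_pow, MvPolynomial.aeval_C, MvPolynomial.aeval_X, Fin.prod_univ_two]
  show algebraMap ℂ L (Q.coeff α) * x ^ (α 0) * u ^ (α 1) * w ^ (T - α 1)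
    = w ^ T * (algebraMap ℂ L (Q.coeff α) * (x ^ (α 0) * (u / w) ^ (α 1)))
  have h2 : w ^ T = w ^ (T - α 1) * w ^ (α 1) := by
    rw [← pow_add]
    congr 1
    omega
  rw [h2, div_pow]
  have h3 : w ^ (α 1) ≠ 0 := pow_ne_zero _ hw
  field_simp

/-- transfer of algebraic relations from power series to functions -/
lemma transfer (f g : EE) (hg : tau g ≠ 0) {Q : MvPolynomial (Fin 2) ℂ}
    (h : MvPolynomial.aeval ![io (X : ℂ⟦X⟧), io (tau f) / io (tau g)] Q = 0) (z : ℂ)
    (hz : g.1 z ≠ 0) : MvPolynomial.aeval ![z, f.1 z / g.1 z] Q = 0 := by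
  classical
  set T : ℕ := Q.support.sup fun α => α 1 with hT
  have hT' : ∀ α ∈ Q.support, α 1 ≤ T := fun α hα =>
    Finset.le_sup (f := fun α : Fin 2 →₀ ℕ => α 1) hα
  have hioinj : Function.Injective io := IsFractionRing.injective ℂ⟦X⟧ KK
  have hg0 : io (tau g) ≠ 0 := fun h0 => hg (hioinj (by rw [h0, map_zero]))
  have h1 := aeval_hom3 Q hT' (io (X : ℂ⟦X⟧)) (io (tau f)) (io (tau g)) hg0
  rw [h, mul_zero] at h1
  have h2 := aeval_comp_eq (IsScalarTower.toAlgHom ℂ ℂ⟦X⟧ KK) ![(X : ℂ⟦X⟧), tau f, tau g]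
    (hom3 T Q)
  have h3 : (fun t => (IsScalarTower.toAlgHom ℂ ℂ⟦X⟧ KK) (![(X : ℂ⟦X⟧), tau f, tau g] t))
      = ![io (X : ℂ⟦X⟧), io (tau f), io (tau g)] := by
    funext t
    fin_cases t <;> rfl
  rw [h3, h1] at h2
  have h4 : MvPolynomial.aeval ![(X : ℂ⟦X⟧), tau f, tau g] (hom3 T Q) = 0 :=
    hioinj (by rw [map_zero]; exact h2)
  have h5 := aeval_comp_eq tau ![zE, f, g] (hom3 T Q)
  have h6 : (fun t => tau (![zE, f, g] t)) = ![(X : ℂ⟦X⟧), tau f, tau g] := by
    funext t
    fin_cases t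
    · exact tau_zE
    · rfl
    · rfl
  rw [h6, h4] at h5
  have h7 : MvPolynomial.aeval ![zE, f, g] (hom3 T Q) = 0 := tau_inj (by rw [h5, map_zero])
  have h8 := aeval_comp_eq (evE z) ![zE, f, g] (hom3 T Q)
  have h9 : (fun t => (evE z) (![zE, f, g] t)) = ![z, f.1 z, g.1 z] := by
    funext t
    fin_cases t <;> rfl
  rw [h9, h7, map_zero, aeval_hom3 Q hT' z (f.1 z) (g.1 z) hz] at h8
  exact (mul_eq_zero.mp h8.symm).resolve_left (pow_ne_zero _ hz)

end Pool.Agent.H13.Hol
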